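import Pool.Agent.U290.EHS.Par3

/-! Even uniformity: tower lower bounds for the other numbers of red faces. -/

set_option autoImplicit false

namespace Pool.Agent.U290.EHS

open Finset Pool.Agent.H526R2.Delta

theorem psi_image {y : ℕ → ℕ} (hy : SM y 3) :
    psi ((range 3).image y) = decide (df y 0 < df y 1) := by
  unfold psi
  rw [el_image hy (by omega), el_image hy (by omega), el_image hy (by omega)]
  rfl

theorem Inv.base (N : ℕ) : Inv 3 0 psi N := by
  intro p q hp hq hpar S hS hc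
  obtain ⟨x, hxd⟩ : ∃ x, x = el S := ⟨_, rfl⟩
  have hx : SM x 4 := by
    have := sm_el S
    rwa [hc, ← hxd] at this
  have face : ∀ i ≤ 3, psi (S.erase (el S i)) = decide (fc x i 0 < fc x i 1) := by
    intro i hi
    have hx' : SM (el S) (3 + 1) := by rw [← hxd]; exact hx
    rw [erase_el (m := 3) hc hi, psi_image (sm_skip hx' i), ← hxd]
    rfl
  have hcnt : cnt 3 p q psi S = p * (decide (fc x 0 0 < fc x 0 1)).toNat +
      (decide (fc x 1 0 < fc x 1 1)).toNat + (decide (fc x 2 0 < fc x 2 1)).toNat +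
      q * (decide (fc x 3 0 < fc x 3 1)).toNat := by
    unfold cnt
    rw [sum_range_succ, sum_range_succ, sum_range_succ, sum_range_succ, sum_range_zero,
      face 0 (by omega), face 1 (by omega), face 2 (by omega), face 3 (by omega), wt_zero,
      wt_mid (i := 1) (by omega) (by omega), wt_mid (i := 2) (by omega) (by omega),
      wt_last (by omega)]
    ring
  have hne0 : df x 0 ≠ df x 1 := df_ne hx (j := 0) (by omega)
  have hne1 : df x 1 ≠ df x 2 := df_ne hx (j := 1) (by omega)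
  have f00 : fc x 0 0 = df x 1 := fc_ge (by omega)
  have f01 : fc x 0 1 = df x 2 := fc_ge (by omega)
  have f10 : fc x 1 0 = max (df x 0) (df x 1) := fc_eq hx (by omega)
  have f11 : fc x 1 1 = df x 2 := fc_ge (by omega)
  have f20 : fc x 2 0 = df x 0 := fc_lt (by omega)
  have f21 : fc x 2 1 = max (df x 1) (df x 2) := fc_eq hx (by omega)
  have f30 : fc x 3 0 = df x 0 := fc_lt (by omega)
  have f31 : fc x 3 1 = df x 1 := fc_lt (by omega)
  rw [hcnt, f00, f01, f10, f11, f20, f21, f30, f31]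
  simp only [toNat_dec]
  unfold Good
  split_ifs <;> omega

theorem par (L : ℕ) (hL : 3 ≤ L) : ∃ K : ℕ, 1 ≤ K ∧ ∀ m b : ℕ, K ≤ m → ∃ χ : Finset ℕ → Bool,
    Inv L b χ (tow (L - 2) (m / K)) ∧ NoHom L χ m (tow (L - 2) (m / K)) := by
  induction L, hL using Nat.le_induction with
  | base =>
    refine ⟨3, by norm_num, fun m b hm => ?_⟩
    have h1 : NoHom 3 psi m (tow (3 - 2) (m / 3)) := (noHom_psi (m / 3)).mono le_rfl (by omega)
    have h2 : Inv 3 0 psi (tow (3 - 2) (m / 3)) := Inv.base _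
    by_cases hb : b % 2 = 0
    · exact ⟨psi, h2.congr (by omega), h1⟩
    · exact ⟨fun e => !psi e, (h2.not (by norm_num)).congr (by omega), h1.not⟩
  | succ L hL ih =>
    obtain ⟨K, hK, ih⟩ := ih
    refine ⟨4 * K + 4 * L, by omega, fun m b hm => ?_⟩
    obtain ⟨m₀, hm₀⟩ : ∃ m₀, m₀ = (m - L - 1) / 2 := ⟨_, rfl⟩
    obtain ⟨t, ht⟩ : ∃ t, t = m / (4 * K + 4 * L) := ⟨_, rfl⟩
    have ht1 : 1 ≤ t := by
      rw [ht, Nat.le_div_iff_mul_le (by omega)]
      omega
    have ht2 : t * (4 * K + 4 * L) ≤ m := by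
      rw [ht]
      exact Nat.div_mul_le_self _ _
    have ht3 : t * (4 * K + 4 * L) = 4 * (t * K) + 4 * (t * L) := by ring
    have ht4 : L ≤ t * L := Nat.le_mul_of_pos_left L ht1
    have ht5 : K ≤ t * K := Nat.le_mul_of_pos_left K ht1
    have hm₀K : t * K ≤ m₀ := by omega
    have e : tow (L + 1 - 2) (m / (4 * K + 4 * L)) ≤ 2 ^ tow (L - 2) (m₀ / K) := by
      obtain ⟨s, rfl⟩ : ∃ s, L = s + 2 := ⟨L - 2, by omega⟩
      show tow (s + 1) _ ≤ tow (s + 1) _
      apply tow_mono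
      rw [Nat.le_div_iff_mul_le (by omega), ← ht]
      exact hm₀K
    have main : ∃ b0, ∃ χ : Finset ℕ → Bool, Inv (L + 1) b0 χ (tow (L + 1 - 2)
        (m / (4 * K + 4 * L))) ∧ NoHom (L + 1) χ m (tow (L + 1 - 2) (m / (4 * K + 4 * L))) := by
      by_cases hpar : (L + 1) % 2 = 0
      · obtain ⟨χ1, a1, a2⟩ := ih m₀ (1 + 1) (by omega)
        obtain ⟨χ2, b1, b2⟩ := ih m₀ (1 + (L + 1) - 1) (by omega)
        exact ⟨1, gg L χ1 χ2 0,
          (Inv.step (L := L + 1) (s := 0) (b := 1) (by omega) (Or.inl ⟨hpar, rfl, rfl⟩) a1 b1).mono e,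
          (noHom_gg (s := 0) (by omega) a2 b2).mono e (by omega)⟩
      · obtain ⟨χ1, a1, a2⟩ := ih m₀ (0 + 1) (by omega)
        obtain ⟨χ2, b1, b2⟩ := ih m₀ (0 + (L + 1) - 1) (by omega)
        exact ⟨0, gg L χ1 χ2 1,
          (Inv.step (L := L + 1) (s := 1) (b := 0) (by omega)
            (Or.inr ⟨by omega, rfl, rfl⟩) a1 b1).mono e,
          (noHom_gg (s := 1) (by omega) a2 b2).mono e (by omega)⟩
    obtain ⟨b0, χ, h1, h2⟩ := main
    by_cases hb : b % 2 = b0 % 2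
    · exact ⟨χ, h1.congr hb.symm, h2⟩
    · exact ⟨fun e => !χ e, (h1.not (by omega)).congr (by omega), h2.not⟩

/-- Even uniformity. -/
theorem sharp_even (r : ℕ) (hr : 4 ≤ r) (hre : r % 2 = 0) : ∃ K : ℕ, 1 ≤ K ∧ ∀ n t : ℕ, K ≤ n →
    3 ≤ t → t + 2 ≤ r → ∃ c : Finset ℕ → Bool,
      (∀ S ⊆ range (tow (r - 2) (n / K)), S.card = n → ∀ q : Bool, ∃ e ⊆ S, e.card = r ∧ c e ≠ q) ∧
      ∀ V ⊆ range (tow (r - 2) (n / K)), V.card = r + 1 →
        ((V.powersetCard r).filter fun e => c e = true).card ≠ t := by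
  obtain ⟨K, hK, h⟩ := par r (by omega)
  refine ⟨K, hK, fun n t hn ht1 ht2 => ?_⟩
  obtain ⟨χ, h1, h2⟩ := h n t hn
  refine ⟨χ, h2, fun V hV hc => ?_⟩
  have h3 := h1 1 1 le_rfl le_rfl (by omega) V hV hc
  have h4 : cnt r 1 1 χ V = ((V.powersetCard r).filter fun e => χ e = true).card := by
    rw [count_eq hc]
    apply sum_congr rfl
    intro i _
    have : wt r 1 1 i = 1 := by
      unfold wt
      split_ifs <;> rfl
    rw [this, one_mul]
  rw [← h4]
  unfold Good at h3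
  omega

end Pool.Agent.U290.EHS
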