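import Pool.Agent.U290.EHS.Tower

/-! Quadruples: a colouring on doubly exponentially many points in which five points never span
exactly three red quadruples. -/

set_option autoImplicit false

namespace Pool.Agent.U290.EHS

open Finset Pool.Agent.H526R2.Delta

theorem count_eq {r : ℕ} {χ : Finset ℕ → Bool} {V : Finset ℕ} (hV : V.card = r + 1) :
    ((V.powersetCard r).filter fun e => χ e = true).card =
      ∑ i ∈ range (r + 1), (χ (V.erase (el V i))).toNat := by
  have h1 : V.powersetCard r = (range (r + 1)).image (fun i => V.erase (el V i)) := by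
    ext e
    rw [mem_powersetCard, mem_image]
    constructor
    · rintro ⟨h1, h2⟩
      have h3 : (V \ e).card = 1 := by
        rw [card_sdiff_of_subset h1, hV, h2]
        omega
      obtain ⟨a, ha⟩ := card_eq_one.1 h3
      have haV : a ∈ V \ e := by rw [ha]; exact mem_singleton_self a
      obtain ⟨i, hi, rfl⟩ := el_surj (mem_sdiff.1 haV).1
      refine ⟨i, by rw [mem_range]; omega, ?_⟩
      rw [← sdiff_singleton_eq_erase, ← ha, Finset.sdiff_sdiff_eq_self h1]
    · rintro ⟨i, hi, rfl⟩
      rw [mem_range] at hi
      exact ⟨erase_subset _ _, by rw [card_erase_of_mem (el_mem (by omega)), hV]; rfl⟩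
  rw [h1, filter_image, card_image_of_injOn, card_filter]
  · apply sum_congr rfl
    intro i _
    cases χ (V.erase (el V i)) <;> simp
  · intro i hi j hj hij
    have hi' := mem_range.1 (mem_filter.1 (mem_coe.1 hi)).1
    have hj' := mem_range.1 (mem_filter.1 (mem_coe.1 hj)).1
    have h2 := Finset.erase_injOn V (mem_coe.2 (el_mem (by omega)))
      (mem_coe.2 (el_mem (by omega))) hij
    exact (sm_el V).inj (by omega) (by omega) h2

/-- The colouring of the triples. -/
noncomputable def psi (T : Finset ℕ) : Bool := decide (hd (el T 0) (el T 1) < hd (el T 1) (el T 2))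

theorem psi_three {a b c : ℕ} (hab : a < b) (hbc : b < c) :
    psi {a, b, c} = decide (hd a b < hd b c) := by
  obtain ⟨h1, h2, h3⟩ := el_three hab hbc
  unfold psi
  rw [h1, h2, h3]

def tri (a b c : ℕ) (j : ℕ) : ℕ := if j = 0 then a else if j = 1 then b else c

noncomputable def T (a b c : ℕ) : Bool := upD 3 psi (tri a b c)

theorem image_tri (a b c : ℕ) : (range 3).image (tri a b c) = {a, b, c} := by
  ext u
  simp only [mem_image, mem_range, mem_insert, mem_singleton]
  constructor
  · rintro ⟨j, hj, rfl⟩
    have h3 : j = 0 ∨ j = 1 ∨ j = 2 := by omega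
    rcases h3 with rfl | rfl | rfl
    · exact Or.inl rfl
    · exact Or.inr (Or.inl rfl)
    · exact Or.inr (Or.inr rfl)
  · rintro (h | h | h)
    · exact ⟨0, by omega, h.symm⟩
    · exact ⟨1, by omega, h.symm⟩
    · exact ⟨2, by omega, h.symm⟩

theorem T_inc {a b c : ℕ} (hab : a < b) (hbc : b < c) : T a b c = decide (hd a b < hd b c) := by
  rw [T, upD_mono, image_tri, psi_three hab hbc]
  left
  intro j hj
  have : j = 0 ∨ j = 1 := by omega
  rcases this with rfl | rfl
  · exact hab
  · exact hbc

theorem T_dec {a b c : ℕ} (hab : b < a) (hbc : c < b) : T a b c = decide (hd c b < hd b a) := by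
  rw [T, upD_mono, image_tri]
  · have : ({a, b, c} : Finset ℕ) = {c, b, a} := by
      ext u
      simp only [mem_insert, mem_singleton]
      tauto
    rw [this, psi_three hbc hab]
  right
  intro j hj
  have : j = 0 ∨ j = 1 := by omega
  rcases this with rfl | rfl
  · exact hab
  · exact hbc

theorem T_max {a b c : ℕ} (hab : a < b) (hbc : c < b) : T a b c = false := by
  rw [T, upD_non]
  · apply decide_eq_false
    show ¬ b < a
    omega
  · intro h
    have h1 : b < c := h 1 (by omega)
    omega
  · intro h
    have h1 : b < a := h 0 (by omega)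
    omega

theorem T_min {a b c : ℕ} (hab : b < a) (hbc : b < c) : T a b c = true := by
  rw [T, upD_non]
  · apply decide_eq_true
    exact hab
  · intro h
    have h1 : a < b := h 0 (by omega)
    omega
  · intro h
    have h1 : c < b := h 1 (by omega)
    omega

theorem toNat_dec (P : Prop) [Decidable P] : (decide P).toNat = if P then 1 else 0 := by
  by_cases h : P <;> simp [h]

/-- The number of red faces. -/
theorem count_aux {a0 a1 a2 a3 : ℕ} (h01 : a0 ≠ a1) (h12 : a1 ≠ a2) (h23 : a2 ≠ a3)
    (h13 : a2 < a1 → a2 < a3 → a1 ≠ a3) (h02 : a1 < a0 → a1 < a2 → a0 ≠ a2) :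
    (T a1 a2 a3).toNat + (T (max a0 a1) a2 a3).toNat + (T a0 (max a1 a2) a3).toNat +
      (T a0 a1 (max a2 a3)).toNat + (T a0 a1 a2).toNat ≠ 3 := by
  rcases lt_or_gt_of_ne h01 with g0 | g0 <;> rcases lt_or_gt_of_ne h12 with g1 | g1 <;>
    rcases lt_or_gt_of_ne h23 with g2 | g2
  · -- increasing
    rw [max_eq_right g0.le, max_eq_right g1.le, max_eq_right g2.le, T_inc g1 g2,
      T_inc (g0.trans g1) g2, T_inc g0 (g1.trans g2), T_inc g0 g1, hd_max g0 g1, hd_max g1 g2]
    simp only [toNat_dec]
    have := hd_ne g0 g1
    have := hd_ne g1 g2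
    split_ifs <;> omega
  · -- inc, inc, dec
    rw [max_eq_right g0.le, max_eq_right g1.le, max_eq_left g2.le, T_max g1 g2,
      T_max (g0.trans g1) g2, T_inc g0 g1]
    simp only [toNat_dec, Bool.toNat_false]
    split_ifs <;> omega
  · -- inc, dec, inc
    rw [max_eq_right g0.le, max_eq_left g1.le, max_eq_right g2.le, T_min g1 g2, T_max g0 g1]
    rcases lt_or_gt_of_ne (h13 g1 g2) with g3 | g3
    · rw [T_inc g0 g3]
      simp only [toNat_dec, Bool.toNat_false, Bool.toNat_true]
      split_ifs <;> omega
    · rw [T_max g0 g3]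
      simp only [Bool.toNat_false, Bool.toNat_true]
      omega
  · -- inc, dec, dec
    rw [max_eq_right g0.le, max_eq_left g1.le, max_eq_left g2.le, T_dec g1 g2,
      T_max g0 (g2.trans g1), T_max g0 g1]
    simp only [toNat_dec, Bool.toNat_false]
    split_ifs <;> omega
  · -- dec, inc, inc
    rw [max_eq_left g0.le, max_eq_right g1.le, max_eq_right g2.le, T_inc g1 g2,
      T_min g0 (g1.trans g2), T_min g0 g1]
    rcases lt_or_gt_of_ne (h02 g0 g1) with g3 | g3
    · rw [T_inc g3 g2, hd_max g0 g3]
      simp only [toNat_dec, Bool.toNat_true]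
      split_ifs <;> omega
    · rw [T_min g3 g2]
      simp only [toNat_dec, Bool.toNat_true]
      split_ifs <;> omega
  · -- dec, inc, dec
    rw [max_eq_left g0.le, max_eq_right g1.le, max_eq_left g2.le, T_max g1 g2,
      T_min g0 g1]
    rcases lt_or_gt_of_ne (h02 g0 g1) with g3 | g3
    · rw [T_max g3 g2]
      simp only [Bool.toNat_true, Bool.toNat_false]
      omega
    · rw [T_dec g3 g2]
      simp only [toNat_dec, Bool.toNat_true, Bool.toNat_false]
      split_ifs <;> omega
  · -- dec, dec, inc
    rw [max_eq_left g0.le, max_eq_left g1.le, max_eq_right g2.le, T_min g1 g2,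
      T_min (g1.trans g0) g2, T_dec g0 g1]
    rcases lt_or_gt_of_ne (h13 g1 g2) with g3 | g3
    · rw [T_min g0 g3]
      simp only [toNat_dec, Bool.toNat_true]
      split_ifs <;> omega
    · rw [T_dec g0 g3, hd_max g2 g3]
      simp only [toNat_dec, Bool.toNat_true]
      split_ifs <;> omega
  · -- decreasing
    rw [max_eq_left g0.le, max_eq_left g1.le, max_eq_left g2.le, T_dec g1 g2,
      T_dec (g1.trans g0) g2, T_dec g0 (g2.trans g1), T_dec g0 g1, hd_max g1 g0, hd_max g2 g1]
    simp only [toNat_dec]
    have := hd_ne g1 g0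
    have := hd_ne g2 g1
    split_ifs <;> omega

theorem face_T {x : ℕ → ℕ} (i : ℕ) (a b c : ℕ) (h0 : df (fun k => x (skip i k)) 0 = a)
    (h1 : df (fun k => x (skip i k)) 1 = b) (h2 : df (fun k => x (skip i k)) 2 = c) :
    upD 3 psi (df (fun k => x (skip i k))) = T a b c := by
  apply upD_congr (by norm_num)
  intro j hj
  have h3 : j = 0 ∨ j = 1 ∨ j = 2 := by omega
  rcases h3 with rfl | rfl | rfl
  · exact h0
  · exact h1
  · exact h2

theorem ne_three {S : Finset ℕ} (hS : S.card = 5) :
    ((S.powersetCard 4).filter fun e => up 3 psi e = true).card ≠ 3 := by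
  have hx : SM (el S) 5 := by
    have := sm_el S
    rwa [hS] at this
  rw [count_eq (r := 4) hS]
  have face : ∀ i ≤ 4, up 3 psi (S.erase (el S i)) =
      upD 3 psi (df (fun k => el S (skip i k))) := by
    intro i hi
    rw [erase_el (m := 4) hS hi, up_image (by omega) (sm_skip hx i)]
  rw [sum_range_succ, sum_range_succ, sum_range_succ, sum_range_succ, sum_range_succ,
    sum_range_zero, face 0 (by omega), face 1 (by omega), face 2 (by omega), face 3 (by omega),
    face 4 (by omega)]
  set x := el S
  rw [face_T 0 (df x 1) (df x 2) (df x 3) (df_skip_ge (by omega)) (df_skip_ge (by omega))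
      (df_skip_ge (by omega)),
    face_T 1 (max (df x 0) (df x 1)) (df x 2) (df x 3) (df_skip_eq hx (by omega))
      (df_skip_ge (by omega)) (df_skip_ge (by omega)),
    face_T 2 (df x 0) (max (df x 1) (df x 2)) (df x 3) (df_skip_lt (by omega))
      (df_skip_eq hx (by omega)) (df_skip_ge (by omega)),
    face_T 3 (df x 0) (df x 1) (max (df x 2) (df x 3)) (df_skip_lt (by omega))
      (df_skip_lt (by omega)) (df_skip_eq hx (by omega)),
    face_T 4 (df x 0) (df x 1) (df x 2) (df_skip_lt (by omega)) (df_skip_lt (by omega))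
      (df_skip_lt (by omega))]
  have h13 : df x 2 < df x 1 → df x 2 < df x 3 → df x 1 ≠ df x 3 := by
    intro h1 _
    have h2 := hd_ne (x := x 1) (y := x 3) (z := x 4) (hx _ _ (by omega) (by omega))
      (hx _ _ (by omega) (by omega))
    rw [hd_max (x := x 1) (y := x 2) (z := x 3) (hx _ _ (by omega) (by omega))
      (hx _ _ (by omega) (by omega))] at h2
    have e : max (hd (x 1) (x 2)) (hd (x 2) (x 3)) = df x 1 := max_eq_left h1.le
    rw [e] at h2
    exact h2
  have h02 : df x 1 < df x 0 → df x 1 < df x 2 → df x 0 ≠ df x 2 := by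
    intro h1 _
    have h2 := hd_ne (x := x 0) (y := x 2) (z := x 3) (hx _ _ (by omega) (by omega))
      (hx _ _ (by omega) (by omega))
    rw [hd_max (x := x 0) (y := x 1) (z := x 2) (hx _ _ (by omega) (by omega))
      (hx _ _ (by omega) (by omega))] at h2
    have e : max (hd (x 0) (x 1)) (hd (x 1) (x 2)) = df x 0 := max_eq_left h1.le
    rw [e] at h2
    exact h2
  have key := count_aux (df_ne hx (j := 0) (by omega)) (df_ne hx (j := 1) (by omega))
    (df_ne hx (j := 2) (by omega)) h13 h02
  intro h
  apply key
  rw [← h]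
  show _ = _
  ring_nf

/-- Homogeneous sets of the triple colouring. -/
theorem noHom_psi (k : ℕ) : NoHom 3 psi (k + 2) (2 ^ k) := by
  intro S hS hc q
  by_contra hcon
  push Not at hcon
  have hx : SM (el S) (k + 2) := by
    have := sm_el S
    rwa [hc] at this
  have hb : ∀ j < k + 2, el S j < 2 ^ k := fun j hj => by
    have := hS (el_mem (S := S) (j := j) (by omega))
    simpa using this
  have hlt : ∀ j, j + 1 < k + 2 → df (el S) j < k := fun j hj =>
    hd_lt (hx _ _ (by omega) (by omega)) (hb _ (by omega))
  have hne : ∀ j, j + 2 < k + 2 → df (el S) j ≠ df (el S) (j + 1) := fun j hj => df_ne hx hj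
  have hq : ∀ j, j + 2 < k + 2 → decide (df (el S) j < df (el S) (j + 1)) = q := by
    intro j hj
    have a1 : el S j < el S (j + 1) := hx _ _ (by omega) (by omega)
    have a2 : el S (j + 1) < el S (j + 1 + 1) := hx _ _ (by omega) (by omega)
    have h1 := hcon {el S j, el S (j + 1), el S (j + 1 + 1)} (by
      intro u hu
      simp only [mem_insert, mem_singleton] at hu
      rcases hu with rfl | rfl | rfl
      · exact el_mem (by omega)
      · exact el_mem (by omega)
      · exact el_mem (by omega)) (by
      rw [card_eq_three]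
      exact ⟨_, _, _, by omega, by omega, by omega, rfl⟩)
    rw [psi_three a1 a2] at h1
    exact h1
  -- k + 1 values below k
  have hinj : ∀ i j, i < j → j < k + 1 → df (el S) i ≠ df (el S) j := by
    intro i j hij hj
    rcases q with _ | _
    · have hD : DecD (df (el S)) (k + 1) := fun j hj => by
        have h1 := of_decide_eq_false (hq j (by omega))
        have h2 := hne j (by omega)
        omega
      have := decD_lt hD hij hj
      omega
    · have hI : IncD (df (el S)) (k + 1) := fun j hj => of_decide_eq_true (hq j (by omega))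
      have := incD_lt hI hij hj
      omega
  have hcard : ((range (k + 1)).image (df (el S))).card = k + 1 := by
    rw [Finset.card_image_of_injOn, card_range]
    intro i hi j hj hij
    rw [mem_coe, mem_range] at hi hj
    rcases lt_trichotomy i j with h | h | h
    · exact absurd hij (hinj i j h hj)
    · exact h
    · exact absurd hij.symm (hinj j i h hi)
  have hsub : (range (k + 1)).image (df (el S)) ⊆ range k := by
    intro u hu
    obtain ⟨j, hj, rfl⟩ := mem_image.1 hu
    rw [mem_range] at hj ⊢
    exact hlt j (by omega)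
  have := card_le_card hsub
  rw [hcard, card_range] at this
  omega

theorem four (n t : ℕ) (hn : 12 ≤ n) (ht : t = 2 ∨ t = 3) : ∃ c : Finset ℕ → Bool,
    (∀ S ⊆ range (tow 2 (n / 12)), S.card = n → ∀ q : Bool, ∃ e ⊆ S, e.card = 4 ∧ c e ≠ q) ∧
      ∀ V ⊆ range (tow 2 (n / 12)), V.card = 4 + 1 →
        ((V.powersetCard 4).filter fun e => c e = true).card ≠ t := by
  have h1 : NoHom 4 (up 3 psi) n (tow 2 (n / 12)) := by
    obtain ⟨k, hk⟩ : ∃ k, k = (n - 6) / 2 := ⟨_, rfl⟩
    have h2 := noHom_up (r := 3) (m := k + 2) (by norm_num) (by omega) (noHom_psi k)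
    refine h2.mono ?_ (by omega)
    show 2 ^ (2 ^ (n / 12)) ≤ 2 ^ (2 ^ k)
    apply Nat.pow_le_pow_right (by norm_num)
    apply Nat.pow_le_pow_right (by norm_num)
    omega
  rcases ht with rfl | rfl
  · refine ⟨fun e => !up 3 psi e, ?_, ?_⟩
    · intro S hS hc q
      obtain ⟨e, h3, h4, h5⟩ := h1 S hS hc (!q)
      refine ⟨e, h3, h4, ?_⟩
      intro h6
      apply h5
      rw [← h6, Bool.not_not]
    · intro V hV hc hcon
      have h3 := card_filter_add_card_filter_not (s := V.powersetCard 4)
        (fun e => up 3 psi e = true)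
      have h4 : (V.powersetCard 4).card = 5 := by
        rw [card_powersetCard, hc]
        rfl
      have h5 : ((V.powersetCard 4).filter fun e => ¬ up 3 psi e = true).card = 2 := by
        have h6 : ((V.powersetCard 4).filter fun e => ¬ up 3 psi e = true) =
            (V.powersetCard 4).filter fun e => (fun e => !up 3 psi e) e = true := by
          apply filter_congr
          intro e _
          simp
        rw [h6]
        exact hcon
      exact ne_three (by omega) (by omega : _ = 3)
  · exact ⟨up 3 psi, h1, fun V _ hc => ne_three (by omega)⟩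

end Pool.Agent.U290.EHS
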