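import Pool.Agent.U290.EHS.Four

/-! A more general stepping-up colouring: first definitions and the two tail lemmas. -/

set_option autoImplicit false

namespace Pool.Agent.U290.EHS

open Finset Pool.Agent.H526R2.Delta

open Classical in
/-- The colour of a sequence of differences; increasing and decreasing sequences use `χ1`, `χ2`. -/
noncomputable def gD (r : ℕ) (χ1 χ2 : Finset ℕ → Bool) (s : ℕ) (d : ℕ → ℕ) : Bool :=
  if IncD d r then χ1 ((range r).image d) else if DecD d r then χ2 ((range r).image d)
    else decide (d (s + 1) < d s)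

section

variable {r s : ℕ} {χ1 χ2 : Finset ℕ → Bool} {d d' : ℕ → ℕ}

theorem gD_inc (h : IncD d r) : gD r χ1 χ2 s d = χ1 ((range r).image d) := by rw [gD, if_pos h]

theorem gD_dec (h0 : ¬ IncD d r) (h : DecD d r) : gD r χ1 χ2 s d = χ2 ((range r).image d) := by
  rw [gD, if_neg h0, if_pos h]

theorem gD_non (h0 : ¬ IncD d r) (h : ¬ DecD d r) : gD r χ1 χ2 s d = decide (d (s + 1) < d s) := by
  rw [gD, if_neg h0, if_neg h]

theorem gD_ud {k l : ℕ} (hk : k + 1 < r) (hl : l + 1 < r) (h1 : d k < d (k + 1))
    (h2 : d (l + 1) < d l) : gD r χ1 χ2 s d = decide (d (s + 1) < d s) := by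
  apply gD_non
  · intro h
    have := h l hl
    omega
  · intro h
    have := h k hk
    omega

theorem gD_congr (hr : s + 2 ≤ r) (h : ∀ j < r, d j = d' j) :
    gD r χ1 χ2 s d = gD r χ1 χ2 s d' := by
  have h1 : IncD d r ↔ IncD d' r := by
    unfold IncD
    refine forall_congr' fun j => forall_congr' fun hj => ?_
    rw [h j (by omega), h (j + 1) (by omega)]
  have h2 : DecD d r ↔ DecD d' r := by
    unfold DecD
    refine forall_congr' fun j => forall_congr' fun hj => ?_
    rw [h j (by omega), h (j + 1) (by omega)]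
  have h3 : (range r).image d = (range r).image d' :=
    Finset.image_congr (fun j hj => h j (by simpa using hj))
  by_cases h4 : IncD d r
  · rw [gD_inc h4, gD_inc (h1.1 h4), h3]
  by_cases h5 : DecD d r
  · rw [gD_dec h4 h5, gD_dec (fun h => h4 (h1.2 h)) (h2.1 h5), h3]
  · rw [gD_non h4 h5, gD_non (fun h => h4 (h1.2 h)) (fun h => h5 (h2.2 h)), h (s + 1) (by omega),
      h s (by omega)]

/-- The colouring of the `r + 1`-sets. -/
noncomputable def gg (r : ℕ) (χ1 χ2 : Finset ℕ → Bool) (s : ℕ) (S : Finset ℕ) : Bool :=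
  gD r χ1 χ2 s (df (el S))

theorem gg_image {x : ℕ → ℕ} (hr : s + 2 ≤ r) (h : SM x (r + 1)) :
    gg r χ1 χ2 s ((range (r + 1)).image x) = gD r χ1 χ2 s (df x) := by
  apply gD_congr hr
  intro j hj
  unfold df
  rw [el_image h (by omega), el_image h (by omega)]

end

/-- First descent. -/
theorem tail_inc {x : ℕ → ℕ} {L : ℕ} (hx : SM x (L + 1)) (h01 : df x 0 < df x 1)
    (hI : ¬ IncD (df x) L) : ∃ j, 2 ≤ j ∧ j < L ∧ df x j < df x (j - 1) ∧
      (∀ k, k + 1 < j → df x k < df x (k + 1)) ∧
      (∀ i, 2 ≤ i → i ≤ L → i ≠ j → i ≠ j + 1 → ¬ IncD (df (fun k => x (skip i k))) (L - 1)) ∧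
      ((∀ k < L - 1, df (fun l => x (skip j l)) k = df (fun l => x (skip (j + 1) l)) k) ∨
        (¬ IncD (df (fun k => x (skip j k))) (L - 1) ∧
          ¬ IncD (df (fun k => x (skip (j + 1) k))) (L - 1))) := by
  classical
  have hne : ∀ j, j + 1 < L → df x j ≠ df x (j + 1) := fun j hj => df_ne hx (by omega)
  have hex : ∃ k, k + 1 < L ∧ df x (k + 1) < df x k := by
    by_contra hcon
    push Not at hcon
    apply hI
    intro k hk
    have := hcon k hk
    have := hne k hk
    omega
  obtain ⟨k0, hk1, hk2, hmin⟩ : ∃ k0, k0 + 1 < L ∧ df x (k0 + 1) < df x k0 ∧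
      ∀ k < k0, df x k < df x (k + 1) := by
    obtain ⟨hk1, hk2⟩ := Nat.find_spec hex
    refine ⟨Nat.find hex, hk1, hk2, ?_⟩
    intro k hk
    have h1 := Nat.find_min hex hk
    have h2 := hne k (by omega)
    by_contra h3
    exact h1 ⟨by omega, by omega⟩
  have hk01 : 1 ≤ k0 := by
    by_contra h
    have h2 : k0 = 0 := by omega
    rw [h2] at hk2
    have e : df x (0 + 1) = df x 1 := rfl
    omega
  have hpk : df x (k0 - 1) < df x k0 := by
    have := hmin (k0 - 1) (by omega)
    rwa [show k0 - 1 + 1 = k0 by omega] at this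
  refine ⟨k0 + 1, by omega, hk1, by simpa using hk2, fun k hk => hmin k (by omega), ?_, ?_⟩
  · intro i hi1 hi2 hi3 hi4 hI'
    -- the descent k0, k0+1 survives
    rcases Nat.lt_or_ge (k0 + 2) i with h | h
    · have := hI' k0 (by omega)
      rw [df_skip_lt (by omega), df_skip_lt (by omega)] at this
      omega
    · -- i ≤ k0
      obtain ⟨q, rfl⟩ : ∃ q, k0 = q + 1 := ⟨k0 - 1, by omega⟩
      have h5 : i ≤ q + 1 := by omega
      have := hI' q (by omega)
      rw [df_skip_ge (i := i) (j := q + 1) (by omega)] at this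
      rcases Nat.lt_or_ge q i with h6 | h6
      · have h7 : i = q + 1 := by omega
        subst h7
        rw [df_skip_eq hx (by omega)] at this
        have h8 : df x (q + 1 - 1) < df x (q + 1) := hpk
        omega
      · rw [df_skip_ge h6] at this
        omega
  · by_cases hlast : k0 + 2 = L
    · left
      intro k hk
      rcases Nat.lt_or_ge k k0 with h | h
      · rw [df_skip_lt (by omega), df_skip_lt (by omega)]
      · have h5 : k = k0 := by omega
        subst h5
        rw [df_skip_eq hx (by omega), df_skip_lt (by omega)]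
        omega
    have hn2 := hne (k0 + 1) (by omega)
    rcases Nat.lt_or_ge (df x (k0 + 1)) (df x (k0 + 2)) with h | h
    · left
      intro k hk
      rcases Nat.lt_or_ge k k0 with h1 | h1
      · rw [df_skip_lt (by omega), df_skip_lt (by omega)]
      rcases Nat.eq_or_lt_of_le h1 with h2 | h2
      · rw [← h2, df_skip_eq hx (by omega), df_skip_lt (by omega)]
        omega
      rcases Nat.eq_or_lt_of_le (Nat.succ_le_of_lt h2) with h3 | h3
      · have h4 : k = k0 + 1 := by omega
        rw [h4, df_skip_ge (by omega), df_skip_eq hx (by omega)]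
        have e : df x (k0 + 1 + 1) = df x (k0 + 2) := rfl
        omega
      · rw [df_skip_ge (by omega), df_skip_ge (by omega)]
    · right
      constructor
      · intro hI'
        have := hI' k0 (by omega)
        rw [df_skip_eq hx (by omega), df_skip_ge (by omega)] at this
        have e : df x (k0 + 1 + 1) = df x (k0 + 2) := rfl
        omega
      · intro hI'
        have := hI' k0 (by omega)
        rw [df_skip_lt (by omega), df_skip_eq hx (by omega)] at this
        have e : df x (k0 + 1 + 1) = df x (k0 + 2) := rfl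
        omega

/-- First ascent. -/
theorem tail_dec {x : ℕ → ℕ} {L : ℕ} (hx : SM x (L + 1)) (h01 : df x 1 < df x 0)
    (hI : ¬ DecD (df x) L) : ∃ j, 2 ≤ j ∧ j < L ∧ df x (j - 1) < df x j ∧
      (∀ k, k + 1 < j → df x (k + 1) < df x k) ∧
      (∀ i, i ≤ L → i ≠ j - 1 → i ≠ j → (i = L → j + 1 ≠ L) →
        ¬ DecD (df (fun k => x (skip i k))) (L - 1)) ∧
      (∀ k < L - 1, df (fun l => x (skip (j - 1) l)) k = df (fun l => x (skip j l)) k) := by
  classical
  have hne : ∀ j, j + 1 < L → df x j ≠ df x (j + 1) := fun j hj => df_ne hx (by omega)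
  have hex : ∃ k, k + 1 < L ∧ df x k < df x (k + 1) := by
    by_contra hcon
    push Not at hcon
    apply hI
    intro k hk
    have := hcon k hk
    have := hne k hk
    omega
  obtain ⟨k0, hk1, hk2, hmin⟩ : ∃ k0, k0 + 1 < L ∧ df x k0 < df x (k0 + 1) ∧
      ∀ k < k0, df x (k + 1) < df x k := by
    obtain ⟨hk1, hk2⟩ := Nat.find_spec hex
    refine ⟨Nat.find hex, hk1, hk2, ?_⟩
    intro k hk
    have h1 := Nat.find_min hex hk
    have h2 := hne k (by omega)
    by_contra h3
    exact h1 ⟨by omega, by omega⟩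
  have hk01 : 1 ≤ k0 := by
    by_contra h
    have h2 : k0 = 0 := by omega
    rw [h2] at hk2
    have e : df x (0 + 1) = df x 1 := rfl
    omega
  have hpk : df x k0 < df x (k0 - 1) := by
    have := hmin (k0 - 1) (by omega)
    rwa [show k0 - 1 + 1 = k0 by omega] at this
  refine ⟨k0 + 1, by omega, hk1, by simpa using hk2, fun k hk => hmin k (by omega), ?_, ?_⟩
  · intro i hi2 hi3 hi4 hi5 hI'
    have hi3' : i ≠ k0 := by simpa using hi3
    rcases Nat.lt_or_ge (k0 + 1) i with h | h
    · rcases Nat.lt_or_ge (k0 + 2) i with h2 | h2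
      · have := hI' k0 (by omega)
        rw [df_skip_lt (by omega), df_skip_lt (by omega)] at this
        omega
      · -- i = k0 + 2
        have h3 : i = k0 + 1 + 1 := by omega
        subst h3
        have h4 : k0 + 1 + 1 < L := by
          by_contra h5
          exact hi5 (by omega) (by omega)
        have := hI' k0 (by omega)
        rw [df_skip_eq hx (by omega), df_skip_lt (by omega)] at this
        omega
    · -- i < k0
      obtain ⟨q, hq⟩ : ∃ q, k0 = q + 1 := ⟨k0 - 1, by omega⟩
      have := hI' q (by omega)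
      rw [df_skip_ge (i := i) (j := q + 1) (by omega), df_skip_ge (by omega), ← hq] at this
      omega
  · intro k hk
    show df (fun l => x (skip k0 l)) k = df (fun l => x (skip (k0 + 1) l)) k
    obtain ⟨q, hq⟩ : ∃ q, k0 = q + 1 := ⟨k0 - 1, by omega⟩
    rw [hq] at hpk hk2 ⊢
    have hpk' : df x (q + 1) < df x q := hpk
    rcases Nat.lt_or_ge k q with h1 | h1
    · rw [df_skip_lt (by omega), df_skip_lt (by omega)]
    rcases Nat.eq_or_lt_of_le h1 with h2 | h2
    · rw [← h2, df_skip_eq hx (by omega), df_skip_lt (by omega)]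
      omega
    rcases Nat.eq_or_lt_of_le (Nat.succ_le_of_lt h2) with h3 | h3
    · have h4 : k = q + 1 := by omega
      rw [h4, df_skip_ge (by omega), df_skip_eq hx (by omega)]
      omega
    · rw [df_skip_ge (by omega), df_skip_ge (by omega)]

end Pool.Agent.U290.EHS
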