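import Pool.Agent.U290.EHS.Step

/-! Homogeneous sets of the stepping-up colouring. -/

set_option autoImplicit false

namespace Pool.Agent.U290.EHS

open Finset Pool.Agent.H526R2.Delta

/-- No homogeneous set of size `m` below `N`. -/
def NoHom (r : ℕ) (χ : Finset ℕ → Bool) (m N : ℕ) : Prop :=
  ∀ S ⊆ range N, S.card = m → ∀ q : Bool, ∃ e ⊆ S, e.card = r ∧ χ e ≠ q

theorem sm_of_succ {y : ℕ → ℕ} {m : ℕ} (h : ∀ k, k + 1 < m → y k < y (k + 1)) : SM y m := by
  intro i j hij hj
  induction j, hij using Nat.le_induction with
  | base => exact h i hj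
  | succ j hj2 ih => exact (ih (by omega)).trans (h j hj)

theorem run_aux (P : ℕ → Prop) (m : ℕ) (h : ∀ p, p + 2 ≤ 2 * m → P p → P (p + 1)) :
    (∀ j, j + 1 < m → ¬ P j) ∨ (∀ j, m ≤ j → j + 1 < 2 * m → P j) := by
  by_cases hh : ∃ j, j + 1 < m ∧ P j
  · right
    obtain ⟨j, hj, hP⟩ := hh
    have key : ∀ k, j ≤ k → k + 1 < 2 * m → P k := by
      intro k hk
      induction k, hk using Nat.le_induction with
      | base => intro _; exact hP
      | succ k hk ih => intro h2; exact h k (by omega) (ih (by omega))
    intro k hk hk2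
    exact key k (by omega) hk2
  · left
    intro j hj hP
    exact hh ⟨j, hj, hP⟩

variable {r : ℕ} {χ : Finset ℕ → Bool} {x : ℕ → ℕ}

/-- The index set of `U`. -/
theorem exists_index {x : ℕ → ℕ} {a m r : ℕ} {U : Finset ℕ}
    (hinj : ∀ i j, a ≤ i → i < a + m → a ≤ j → j < a + m → df x i = df x j → i = j)
    (hU : U ⊆ (Ico a (a + m)).image (df x)) (hc : U.card = r) :
    ∃ j : ℕ → ℕ, SM j r ∧ (∀ k < r, a ≤ j k ∧ j k < a + m) ∧
      (range r).image (fun k => df x (j k)) = U := by
  classical
  set J := (Ico a (a + m)).filter (fun j => df x j ∈ U) with hJ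
  have h1 : J.image (df x) = U := by
    ext u
    rw [mem_image]
    constructor
    · rintro ⟨j, hj, rfl⟩
      exact (mem_filter.1 hj).2
    · intro hu
      obtain ⟨j, hj, hj2⟩ := mem_image.1 (hU hu)
      exact ⟨j, mem_filter.2 ⟨hj, by rw [hj2]; exact hu⟩, hj2⟩
  have h2 : J.card = r := by
    rw [← hc, ← h1, Finset.card_image_of_injOn]
    intro i hi j hj hij
    have hi' := (mem_filter.1 (Finset.mem_coe.1 hi)).1
    have hj' := (mem_filter.1 (Finset.mem_coe.1 hj)).1
    rw [mem_Ico] at hi' hj'
    exact hinj i j hi'.1 hi'.2 hj'.1 hj'.2 hij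
  refine ⟨el J, ?_, ?_, ?_⟩
  · have := sm_el J
    rwa [h2] at this
  · intro k hk
    have h3 : el J k ∈ J := el_mem (by omega)
    have h4 := (mem_filter.1 h3).1
    rwa [mem_Ico] at h4
  · rw [← h1]
    have h3 := image_el J
    rw [h2] at h3
    conv_rhs => rw [← h3]
    rw [Finset.image_image]
    rfl

theorem transfer_inc {n a m : ℕ} (hr : 2 ≤ r) (hx : SM x n) (ha : a + m < n)
    (hI : ∀ j, a ≤ j → j + 1 < a + m → df x j < df x (j + 1)) {U : Finset ℕ}
    (hU : U ⊆ (Ico a (a + m)).image (df x)) (hc : U.card = r) :
    ∃ V ⊆ (range n).image x, V.card = r + 1 ∧ up r χ V = χ U := by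
  have hmono : ∀ i j, a ≤ i → i < j → j < a + m → df x i < df x j := by
    intro i j hi hij hj
    induction j, hij using Nat.le_induction with
    | base => exact hI i hi hj
    | succ j hj2 ih => exact (ih (by omega)).trans (hI j (by omega) hj)
  have hinj : ∀ i j, a ≤ i → i < a + m → a ≤ j → j < a + m → df x i = df x j → i = j := by
    intro i j h1 h2 h3 h4 h5
    rcases lt_trichotomy i j with h6 | h6 | h6
    · have := hmono i j h1 h6 h4; omega
    · exact h6
    · have := hmono j i h3 h6 h2; omega
  obtain ⟨j, hj1, hj2, hj3⟩ := exists_index hinj hU hc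
  let y : ℕ → ℕ := fun k => if k = 0 then x (j 0) else x (j (k - 1) + 1)
  have y0 : y 0 = x (j 0) := rfl
  have ys : ∀ k, y (k + 1) = x (j k + 1) := fun k => rfl
  have hy : SM y (r + 1) := by
    apply sm_of_succ
    intro k hk
    rcases Nat.eq_zero_or_pos k with h0 | h0
    · subst h0
      rw [y0, ys]
      have := hj2 0 (by omega)
      exact hx _ _ (by omega) (by omega)
    · obtain ⟨l, rfl⟩ : ∃ l, k = l + 1 := ⟨k - 1, by omega⟩
      rw [ys, ys]
      have h1 := hj1 l (l + 1) (by omega) (by omega)
      have h2 := hj2 (l + 1) (by omega)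
      exact hx _ _ (by omega) (by omega)
  have hd : ∀ k < r, df y k = df x (j k) := by
    intro k hk
    rcases Nat.eq_zero_or_pos k with h0 | h0
    · subst h0
      rfl
    · obtain ⟨l, rfl⟩ : ∃ l, k = l + 1 := ⟨k - 1, by omega⟩
      show hd (y (l + 1)) (y (l + 1 + 1)) = _
      rw [ys, ys]
      have h1 := hj1 l (l + 1) (by omega) (by omega)
      have h2 := hj2 (l + 1) (by omega)
      have h3 := hj2 l (by omega)
      exact hd_inc hx (by omega) (by omega) (fun i h4 h5 => hI i (by omega) (by omega))
  refine ⟨(range (r + 1)).image y, ?_, card_image_sm hy, ?_⟩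
  · intro v hv
    obtain ⟨k, hk, rfl⟩ := mem_image.1 hv
    rw [mem_range] at hk
    rcases Nat.eq_zero_or_pos k with h0 | h0
    · subst h0
      have := hj2 0 (by omega)
      exact mem_image.2 ⟨j 0, by rw [mem_range]; omega, rfl⟩
    · obtain ⟨l, rfl⟩ : ∃ l, k = l + 1 := ⟨k - 1, by omega⟩
      have := hj2 l (by omega)
      exact mem_image.2 ⟨j l + 1, by rw [mem_range]; omega, rfl⟩
  · rw [up_image hr hy, upD_congr hr hd, upD_mono, hj3]
    left
    intro k hk
    have h1 := hj1 k (k + 1) (by omega) (by omega)
    have h2 := hj2 (k + 1) (by omega)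
    have h3 := hj2 k (by omega)
    exact hmono _ _ h3.1 h1 h2.2

theorem transfer_dec {n a m : ℕ} (hr : 2 ≤ r) (hx : SM x n) (ha : a + m < n)
    (hI : ∀ j, a ≤ j → j + 1 < a + m → df x (j + 1) < df x j) {U : Finset ℕ}
    (hU : U ⊆ (Ico a (a + m)).image (df x)) (hc : U.card = r) :
    ∃ V ⊆ (range n).image x, V.card = r + 1 ∧ up r χ V = χ U := by
  have hmono : ∀ i j, a ≤ i → i < j → j < a + m → df x j < df x i := by
    intro i j hi hij hj
    induction j, hij using Nat.le_induction with
    | base => exact hI i hi hj
    | succ j hj2 ih => exact (hI j (by omega) hj).trans (ih (by omega))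
  have hinj : ∀ i j, a ≤ i → i < a + m → a ≤ j → j < a + m → df x i = df x j → i = j := by
    intro i j h1 h2 h3 h4 h5
    rcases lt_trichotomy i j with h6 | h6 | h6
    · have := hmono i j h1 h6 h4; omega
    · exact h6
    · have := hmono j i h3 h6 h2; omega
  obtain ⟨j, hj1, hj2, hj3⟩ := exists_index hinj hU hc
  let y : ℕ → ℕ := fun k => if k < r then x (j k) else x (j (k - 1) + 1)
  have yl : ∀ k, k < r → y k = x (j k) := fun k hk => by
    show (if k < r then x (j k) else x (j (k - 1) + 1)) = _
    rw [if_pos hk]
  have yr : y r = x (j (r - 1) + 1) := by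
    show (if r < r then x (j r) else x (j (r - 1) + 1)) = _
    rw [if_neg (by omega)]
  have hy : SM y (r + 1) := by
    apply sm_of_succ
    intro k hk
    rcases Nat.lt_or_ge (k + 1) r with h0 | h0
    · rw [yl k (by omega), yl (k + 1) h0]
      have h1 := hj1 k (k + 1) (by omega) (by omega)
      have h2 := hj2 (k + 1) (by omega)
      exact hx _ _ (by omega) (by omega)
    · have h3 : k + 1 = r := by omega
      rw [yl k (by omega), h3, yr, show r - 1 = k by omega]
      have := hj2 k (by omega)
      exact hx _ _ (by omega) (by omega)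
  have hd : ∀ k < r, df y k = df x (j k) := by
    intro k hk
    rcases Nat.lt_or_ge (k + 1) r with h0 | h0
    · show hd (y k) (y (k + 1)) = _
      rw [yl k (by omega), yl (k + 1) h0]
      have h1 := hj1 k (k + 1) (by omega) (by omega)
      have h2 := hj2 (k + 1) (by omega)
      have h3 := hj2 k (by omega)
      obtain ⟨b, hb⟩ : ∃ b, j (k + 1) = b + 1 := ⟨j (k + 1) - 1, by omega⟩
      rw [hb]
      exact hd_dec hx (by omega) (by omega) (fun i h4 h5 => hI i (by omega) (by omega))
    · have h3 : k + 1 = r := by omega
      show hd (y k) (y (k + 1)) = _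
      rw [yl k (by omega), h3, yr, show r - 1 = k by omega]
      rfl
  refine ⟨(range (r + 1)).image y, ?_, card_image_sm hy, ?_⟩
  · intro v hv
    obtain ⟨k, hk, rfl⟩ := mem_image.1 hv
    rw [mem_range] at hk
    rcases Nat.lt_or_ge k r with h0 | h0
    · have := hj2 k (by omega)
      exact mem_image.2 ⟨j k, by rw [mem_range]; omega, (yl k h0).symm⟩
    · have h3 : k = r := by omega
      have := hj2 (r - 1) (by omega)
      exact mem_image.2 ⟨j (r - 1) + 1, by rw [mem_range]; omega, by rw [h3, yr]⟩
  · rw [up_image hr hy, upD_congr hr hd, upD_mono, hj3]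
    right
    intro k hk
    have h1 := hj1 k (k + 1) (by omega) (by omega)
    have h2 := hj2 (k + 1) (by omega)
    have h3 := hj2 k (by omega)
    exact hmono _ _ h3.1 h1 h2.2

theorem noHom_up {m N : ℕ} (hr : 3 ≤ r) (hm : 1 ≤ m) (h : NoHom r χ m N) :
    NoHom (r + 1) (up r χ) (2 * m - 1 + r) (2 ^ N) := by
  intro S hS hc q
  by_contra hcon
  push Not at hcon
  set x := el S with hxd
  have hx : SM x (2 * m - 1 + r) := by
    have := sm_el S
    rwa [hc] at this
  have hSx : (range (2 * m - 1 + r)).image x = S := by
    have := image_el S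
    rwa [hc] at this
  have hb : ∀ j < 2 * m - 1 + r, x j < 2 ^ N := fun j hj => by
    have := hS (el_mem (S := S) (j := j) (by omega))
    simpa using this
  have hne : ∀ j, j + 2 < 2 * m - 1 + r → df x j ≠ df x (j + 1) := fun j hj => df_ne hx hj
  -- the colours of windows
  have hwin : ∀ p, p + 2 ≤ 2 * m → upD r χ (df (fun k => x (p + k))) = q := by
    intro p hp
    have h1 : SM (fun k => x (p + k)) (r + 1) := fun i j hij hj =>
      hx _ _ (by omega) (by omega)
    rw [← up_image (by omega) h1]
    apply hcon
    · rw [← hSx]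
      intro v hv
      obtain ⟨k, hk, rfl⟩ := mem_image.1 hv
      rw [mem_range] at hk
      exact mem_image.2 ⟨p + k, by rw [mem_range]; omega, rfl⟩
    · exact card_image_sm h1
  have hdf : ∀ p k, df (fun k => x (p + k)) k = df x (p + k) := fun p k => rfl
  -- homogeneous sets of values
  have fin : ∀ a, a + m ≤ 2 * m →
      ((∀ j, a ≤ j → j + 1 < a + m → df x j < df x (j + 1)) ∨
       (∀ j, a ≤ j → j + 1 < a + m → df x (j + 1) < df x j)) → False := by
    intro a ha hor
    have hcard : ((Ico a (a + m)).image (df x)).card = m := by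
      rw [Finset.card_image_of_injOn, Nat.card_Ico]
      · omega
      · intro i hi j hj hij
        rw [mem_coe, mem_Ico] at hi hj
        rcases hor with hI | hI
        · have hmono : ∀ i j, a ≤ i → i < j → j < a + m → df x i < df x j := by
            intro i j hi hij hj
            induction j, hij using Nat.le_induction with
            | base => exact hI i hi hj
            | succ j hj2 ih => exact (ih (by omega)).trans (hI j (by omega) hj)
          rcases lt_trichotomy i j with h6 | h6 | h6
          · have := hmono i j hi.1 h6 hj.2; omega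
          · exact h6
          · have := hmono j i hj.1 h6 hi.2; omega
        · have hmono : ∀ i j, a ≤ i → i < j → j < a + m → df x j < df x i := by
            intro i j hi hij hj
            induction j, hij using Nat.le_induction with
            | base => exact hI i hi hj
            | succ j hj2 ih => exact (hI j (by omega) hj).trans (ih (by omega))
          rcases lt_trichotomy i j with h6 | h6 | h6
          · have := hmono i j hi.1 h6 hj.2; omega
          · exact h6
          · have := hmono j i hj.1 h6 hi.2; omega
    have hsub : (Ico a (a + m)).image (df x) ⊆ range N := by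
      intro v hv
      obtain ⟨j, hj, rfl⟩ := mem_image.1 hv
      rw [mem_Ico] at hj
      rw [mem_range]
      exact hd_lt (hx _ _ (by omega) (by omega)) (hb _ (by omega))
    obtain ⟨e, he1, he2, he3⟩ := h _ hsub hcard q
    have htr : ∃ V ⊆ (range (2 * m - 1 + r)).image x, V.card = r + 1 ∧ up r χ V = χ e := by
      rcases hor with hI | hI
      · exact transfer_inc (by omega) hx (by omega) hI he1 he2
      · exact transfer_dec (by omega) hx (by omega) hI he1 he2
    obtain ⟨V, hV1, hV2, hV3⟩ := htr
    rw [hSx] at hV1
    apply he3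
    rw [← hV3]
    exact hcon V hV1 hV2
  rcases q with _ | _
  · -- blue
    have hP : ∀ p, p + 2 ≤ 2 * m → df x (p + 1) < df x p → df x (p + 1 + 1) < df x (p + 1) := by
      intro p hp h1
      by_contra h2
      have h3 := hne (p + 1) (by omega)
      have h4 := hwin p hp
      rw [upD_non] at h4
      · rw [hdf, hdf] at h4
        have h5 := of_decide_eq_false h4
        have h6 : df x (p + 0) = df x p := rfl
        omega
      · intro h5
        have := h5 0 (by omega)
        rw [hdf, hdf] at this
        have h6 : df x (p + 0) = df x p := rfl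
        have h7 : df x (p + (0 + 1)) = df x (p + 1) := rfl
        omega
      · intro h5
        have := h5 1 (by omega)
        rw [hdf, hdf] at this
        have h7 : df x (p + (1 + 1)) = df x (p + 1 + 1) := rfl
        omega
    rcases run_aux (fun p => df x (p + 1) < df x p) m hP with h1 | h1
    · apply fin 0 (by omega)
      left
      intro j _ hj
      have h2 := h1 j (by omega)
      have h3 := hne j (by omega)
      omega
    · apply fin m (by omega)
      right
      intro j hj hj2
      exact h1 j hj (by omega)
  · -- red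
    have hP : ∀ p, p + 2 ≤ 2 * m → df x p < df x (p + 1) → df x (p + 1) < df x (p + 1 + 1) := by
      intro p hp h1
      by_contra h2
      have h3 := hne (p + 1) (by omega)
      have h4 := hwin p hp
      rw [upD_non] at h4
      · rw [hdf, hdf] at h4
        have h5 := of_decide_eq_true h4
        have h6 : df x (p + 0) = df x p := rfl
        omega
      · intro h5
        have := h5 1 (by omega)
        rw [hdf, hdf] at this
        have h7 : df x (p + (1 + 1)) = df x (p + 1 + 1) := rfl
        omega
      · intro h5
        have := h5 0 (by omega)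
        rw [hdf, hdf] at this
        have h6 : df x (p + 0) = df x p := rfl
        have h7 : df x (p + (0 + 1)) = df x (p + 1) := rfl
        omega
    rcases run_aux (fun p => df x p < df x (p + 1)) m hP with h1 | h1
    · apply fin 0 (by omega)
      right
      intro j _ hj
      have h2 := h1 j (by omega)
      have h3 := hne j (by omega)
      omega
    · apply fin m (by omega)
      left
      intro j hj hj2
      exact h1 j hj (by omega)

end Pool.Agent.U290.EHS
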