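import Pool.Agent.U290.EHS.Gen

/-! Homogeneous sets of the general stepping-up colouring. -/

set_option autoImplicit false

namespace Pool.Agent.U290.EHS

open Finset Pool.Agent.H526R2.Delta

variable {r s : ℕ} {χ1 χ2 : Finset ℕ → Bool} {x : ℕ → ℕ}

theorem seq_inc {n a m : ℕ} (hr : 2 ≤ r) (hx : SM x n) (ha : a + m < n)
    (hI : ∀ j, a ≤ j → j + 1 < a + m → df x j < df x (j + 1)) {U : Finset ℕ}
    (hU : U ⊆ (Ico a (a + m)).image (df x)) (hc : U.card = r) :
    ∃ y : ℕ → ℕ, SM y (r + 1) ∧ (range (r + 1)).image y ⊆ (range n).image x ∧ IncD (df y) r ∧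
      (range r).image (df y) = U := by
  have hmono : ∀ i j, a ≤ i → i < j → j < a + m → df x i < df x j := by
    intro i j hi hij hj
    induction j, hij using Nat.le_induction with
    | base => exact hI i hi hj
    | succ j hj2 ih => exact (ih (by omega)).trans (hI j (by omega) hj)
  have hinj : ∀ i j, a ≤ i → i < a + m → a ≤ j → j < a + m → df x i = df x j → i = j := by
    intro i j h1 h2 h3 h4 h5
    rcases lt_trichotomy i j with h6 | h6 | h6
    · have := hmono i j h1 h6 h4; omega
    · exact h6
    · have := hmono j i h3 h6 h2; omega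
  obtain ⟨j, hj1, hj2, hj3⟩ := exists_index hinj hU hc
  let y : ℕ → ℕ := fun k => if k = 0 then x (j 0) else x (j (k - 1) + 1)
  have y0 : y 0 = x (j 0) := rfl
  have ys : ∀ k, y (k + 1) = x (j k + 1) := fun k => rfl
  have hy : SM y (r + 1) := by
    apply sm_of_succ
    intro k hk
    rcases Nat.eq_zero_or_pos k with h0 | h0
    · subst h0
      rw [y0, ys]
      have := hj2 0 (by omega)
      exact hx _ _ (by omega) (by omega)
    · obtain ⟨l, rfl⟩ : ∃ l, k = l + 1 := ⟨k - 1, by omega⟩
      rw [ys, ys]
      have h1 := hj1 l (l + 1) (by omega) (by omega)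
      have h2 := hj2 (l + 1) (by omega)
      exact hx _ _ (by omega) (by omega)
  have hd : ∀ k < r, df y k = df x (j k) := by
    intro k hk
    rcases Nat.eq_zero_or_pos k with h0 | h0
    · subst h0
      rfl
    · obtain ⟨l, rfl⟩ : ∃ l, k = l + 1 := ⟨k - 1, by omega⟩
      show hd (y (l + 1)) (y (l + 1 + 1)) = _
      rw [ys, ys]
      have h1 := hj1 l (l + 1) (by omega) (by omega)
      have h2 := hj2 (l + 1) (by omega)
      have h3 := hj2 l (by omega)
      exact hd_inc hx (by omega) (by omega) (fun i h4 h5 => hI i (by omega) (by omega))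
  refine ⟨y, hy, ?_, ?_, ?_⟩
  · intro v hv
    obtain ⟨k, hk, rfl⟩ := mem_image.1 hv
    rw [mem_range] at hk
    rcases Nat.eq_zero_or_pos k with h0 | h0
    · subst h0
      have := hj2 0 (by omega)
      exact mem_image.2 ⟨j 0, by rw [mem_range]; omega, rfl⟩
    · obtain ⟨l, rfl⟩ : ∃ l, k = l + 1 := ⟨k - 1, by omega⟩
      have := hj2 l (by omega)
      exact mem_image.2 ⟨j l + 1, by rw [mem_range]; omega, rfl⟩
  · intro k hk
    rw [hd k (by omega), hd (k + 1) (by omega)]
    have h1 := hj1 k (k + 1) (by omega) (by omega)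
    have h2 := hj2 (k + 1) (by omega)
    have h3 := hj2 k (by omega)
    exact hmono _ _ h3.1 h1 h2.2
  · rw [← hj3]
    exact Finset.image_congr (fun k hk => hd k (by simpa using hk))

theorem seq_dec {n a m : ℕ} (hr : 2 ≤ r) (hx : SM x n) (ha : a + m < n)
    (hI : ∀ j, a ≤ j → j + 1 < a + m → df x (j + 1) < df x j) {U : Finset ℕ}
    (hU : U ⊆ (Ico a (a + m)).image (df x)) (hc : U.card = r) :
    ∃ y : ℕ → ℕ, SM y (r + 1) ∧ (range (r + 1)).image y ⊆ (range n).image x ∧ DecD (df y) r ∧
      (range r).image (df y) = U := by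
  have hmono : ∀ i j, a ≤ i → i < j → j < a + m → df x j < df x i := by
    intro i j hi hij hj
    induction j, hij using Nat.le_induction with
    | base => exact hI i hi hj
    | succ j hj2 ih => exact (hI j (by omega) hj).trans (ih (by omega))
  have hinj : ∀ i j, a ≤ i → i < a + m → a ≤ j → j < a + m → df x i = df x j → i = j := by
    intro i j h1 h2 h3 h4 h5
    rcases lt_trichotomy i j with h6 | h6 | h6
    · have := hmono i j h1 h6 h4; omega
    · exact h6
    · have := hmono j i h3 h6 h2; omega
  obtain ⟨j, hj1, hj2, hj3⟩ := exists_index hinj hU hc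
  let y : ℕ → ℕ := fun k => if k < r then x (j k) else x (j (k - 1) + 1)
  have yl : ∀ k, k < r → y k = x (j k) := fun k hk => by
    show (if k < r then x (j k) else x (j (k - 1) + 1)) = _
    rw [if_pos hk]
  have yr : y r = x (j (r - 1) + 1) := by
    show (if r < r then x (j r) else x (j (r - 1) + 1)) = _
    rw [if_neg (by omega)]
  have hy : SM y (r + 1) := by
    apply sm_of_succ
    intro k hk
    rcases Nat.lt_or_ge (k + 1) r with h0 | h0
    · rw [yl k (by omega), yl (k + 1) h0]
      have h1 := hj1 k (k + 1) (by omega) (by omega)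
      have h2 := hj2 (k + 1) (by omega)
      exact hx _ _ (by omega) (by omega)
    · have h3 : k + 1 = r := by omega
      rw [yl k (by omega), h3, yr, show r - 1 = k by omega]
      have := hj2 k (by omega)
      exact hx _ _ (by omega) (by omega)
  have hd : ∀ k < r, df y k = df x (j k) := by
    intro k hk
    rcases Nat.lt_or_ge (k + 1) r with h0 | h0
    · show hd (y k) (y (k + 1)) = _
      rw [yl k (by omega), yl (k + 1) h0]
      have h1 := hj1 k (k + 1) (by omega) (by omega)
      have h2 := hj2 (k + 1) (by omega)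
      have h3 := hj2 k (by omega)
      obtain ⟨b, hb⟩ : ∃ b, j (k + 1) = b + 1 := ⟨j (k + 1) - 1, by omega⟩
      rw [hb]
      exact hd_dec hx (by omega) (by omega) (fun i h4 h5 => hI i (by omega) (by omega))
    · have h3 : k + 1 = r := by omega
      show hd (y k) (y (k + 1)) = _
      rw [yl k (by omega), h3, yr, show r - 1 = k by omega]
      rfl
  refine ⟨y, hy, ?_, ?_, ?_⟩
  · intro v hv
    obtain ⟨k, hk, rfl⟩ := mem_image.1 hv
    rw [mem_range] at hk
    rcases Nat.lt_or_ge k r with h0 | h0
    · have := hj2 k (by omega)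
      exact mem_image.2 ⟨j k, by rw [mem_range]; omega, (yl k h0).symm⟩
    · have h3 : k = r := by omega
      have := hj2 (r - 1) (by omega)
      exact mem_image.2 ⟨j (r - 1) + 1, by rw [mem_range]; omega, by rw [h3, yr]⟩
  · intro k hk
    rw [hd k (by omega), hd (k + 1) (by omega)]
    have h1 := hj1 k (k + 1) (by omega) (by omega)
    have h2 := hj2 (k + 1) (by omega)
    have h3 := hj2 k (by omega)
    exact hmono _ _ h3.1 h1 h2.2
  · rw [← hj3]
    exact Finset.image_congr (fun k hk => hd k (by simpa using hk))

theorem noHom_gg {m N : ℕ} (hs : s + 3 ≤ r) (h1 : NoHom r χ1 m N)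
    (h2 : NoHom r χ2 m N) : NoHom (r + 1) (gg r χ1 χ2 s) (2 * m + r + s) (2 ^ N) := by
  intro S hS hc q
  by_contra hcon
  push Not at hcon
  obtain ⟨x, hxd⟩ : ∃ x, x = el S := ⟨_, rfl⟩
  have hx : SM x (2 * m + r + s) := by
    have := sm_el S
    rwa [hc, ← hxd] at this
  have hSx : (range (2 * m + r + s)).image x = S := by
    have := image_el S
    rwa [hc, ← hxd] at this
  have hb : ∀ j < 2 * m + r + s, x j < 2 ^ N := fun j hj => by
    have := hS (el_mem (S := S) (j := j) (by omega))
    rw [← hxd] at this
    simpa using this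
  have hne : ∀ j, j + 2 < 2 * m + r + s → df x j ≠ df x (j + 1) := fun j hj => df_ne hx hj
  have hwin : ∀ p, p < 2 * m + s → gD r χ1 χ2 s (df (fun k => x (p + k))) = q := by
    intro p hp
    have h3 : SM (fun k => x (p + k)) (r + 1) := fun i j hij hj =>
      hx _ _ (by omega) (by omega)
    rw [← gg_image (by omega) h3]
    apply hcon
    · rw [← hSx]
      intro v hv
      obtain ⟨k, hk, rfl⟩ := mem_image.1 hv
      rw [mem_range] at hk
      exact mem_image.2 ⟨p + k, by rw [mem_range]; omega, rfl⟩
    · exact card_image_sm h3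
  have hdf : ∀ p k, df (fun k => x (p + k)) k = df x (p + k) := fun p k => rfl
  have hlt : ∀ j, j + 1 < 2 * m + r + s → df x j < N := fun j hj =>
    hd_lt (hx _ _ (by omega) (by omega)) (hb _ (by omega))
  have fin_inc : ∀ a, a + m ≤ 2 * m + s →
      (∀ j, a ≤ j → j + 1 < a + m → df x j < df x (j + 1)) → False := by
    intro a ha hI
    have hmono : ∀ i j, a ≤ i → i < j → j < a + m → df x i < df x j := by
      intro i j hi hij hj
      induction j, hij using Nat.le_induction with
      | base => exact hI i hi hj
      | succ j hj2 ih => exact (ih (by omega)).trans (hI j (by omega) hj)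
    have hcard : ((Ico a (a + m)).image (df x)).card = m := by
      rw [Finset.card_image_of_injOn, Nat.card_Ico]
      · omega
      · intro i hi j hj hij
        rw [mem_coe, mem_Ico] at hi hj
        rcases lt_trichotomy i j with h6 | h6 | h6
        · have := hmono i j hi.1 h6 hj.2; omega
        · exact h6
        · have := hmono j i hj.1 h6 hi.2; omega
    have hsub : (Ico a (a + m)).image (df x) ⊆ range N := by
      intro v hv
      obtain ⟨j, hj, rfl⟩ := mem_image.1 hv
      rw [mem_Ico] at hj
      rw [mem_range]
      exact hlt j (by omega)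
    obtain ⟨e, he1, he2, he3⟩ := h1 _ hsub hcard q
    obtain ⟨y, hy1, hy2, hy3, hy4⟩ := seq_inc (by omega) hx (by omega) hI he1 he2
    apply he3
    rw [hSx] at hy2
    have h5 := hcon _ hy2 (card_image_sm hy1)
    rw [gg_image (by omega) hy1, gD_inc hy3, hy4] at h5
    exact h5
  have fin_dec : ∀ a, a + m ≤ 2 * m + s →
      (∀ j, a ≤ j → j + 1 < a + m → df x (j + 1) < df x j) → False := by
    intro a ha hI
    have hmono : ∀ i j, a ≤ i → i < j → j < a + m → df x j < df x i := by
      intro i j hi hij hj
      induction j, hij using Nat.le_induction with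
      | base => exact hI i hi hj
      | succ j hj2 ih => exact (hI j (by omega) hj).trans (ih (by omega))
    have hcard : ((Ico a (a + m)).image (df x)).card = m := by
      rw [Finset.card_image_of_injOn, Nat.card_Ico]
      · omega
      · intro i hi j hj hij
        rw [mem_coe, mem_Ico] at hi hj
        rcases lt_trichotomy i j with h6 | h6 | h6
        · have := hmono i j hi.1 h6 hj.2; omega
        · exact h6
        · have := hmono j i hj.1 h6 hi.2; omega
    have hsub : (Ico a (a + m)).image (df x) ⊆ range N := by
      intro v hv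
      obtain ⟨j, hj, rfl⟩ := mem_image.1 hv
      rw [mem_Ico] at hj
      rw [mem_range]
      exact hlt j (by omega)
    obtain ⟨e, he1, he2, he3⟩ := h2 _ hsub hcard q
    obtain ⟨y, hy1, hy2, hy3, hy4⟩ := seq_dec (by omega) hx (by omega) hI he1 he2
    apply he3
    rw [hSx] at hy2
    have h5 := hcon _ hy2 (card_image_sm hy1)
    have hnI : ¬ IncD (df y) r := by
      intro h6
      have h7 := h6 0 (by omega)
      have h8 := hy3 0 (by omega)
      omega
    rw [gg_image (by omega) hy1, gD_dec hnI hy3, hy4] at h5
    exact h5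
  rcases q with _ | _
  · -- blue
    have hP : ∀ p, p + 2 ≤ 2 * m → df x (p + s + 1) < df x (p + s) →
        df x (p + 1 + s + 1) < df x (p + 1 + s) := by
      intro p hp h3
      have h4 := hwin p (by omega)
      by_cases hI : IncD (df (fun k => x (p + k))) r
      · have := hI s (by omega)
        rw [hdf, hdf] at this
        have e : df x (p + (s + 1)) = df x (p + s + 1) := rfl
        omega
      by_cases hD : DecD (df (fun k => x (p + k))) r
      · have := hD (s + 1) (by omega)
        rw [hdf, hdf] at this
        rw [show p + 1 + s + 1 = p + (s + 1 + 1) by ring, show p + 1 + s = p + (s + 1) by ring]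
        exact this
      · rw [gD_non hI hD, hdf, hdf] at h4
        exact absurd h3 (of_decide_eq_false h4)
    rcases run_aux (fun p => df x (p + s + 1) < df x (p + s)) m hP with h3 | h3
    · apply fin_inc s (by omega)
      intro j hj1 hj2
      obtain ⟨i, rfl⟩ : ∃ i, j = i + s := ⟨j - s, by omega⟩
      have h4 := h3 i (by omega)
      have h5 := hne (i + s) (by omega)
      have h6 : ¬ df x (i + s + 1) < df x (i + s) := h4
      omega
    · apply fin_dec (m + s) (by omega)
      intro j hj1 hj2
      obtain ⟨i, rfl⟩ : ∃ i, j = i + s := ⟨j - s, by omega⟩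
      exact h3 i (by omega) (by omega)
  · -- red
    have hP : ∀ p, p + 2 ≤ 2 * m → df x (p + s) < df x (p + s + 1) →
        df x (p + 1 + s) < df x (p + 1 + s + 1) := by
      intro p hp h3
      have h4 := hwin p (by omega)
      by_cases hI : IncD (df (fun k => x (p + k))) r
      · have := hI (s + 1) (by omega)
        rw [hdf, hdf] at this
        rw [show p + 1 + s + 1 = p + (s + 1 + 1) by ring, show p + 1 + s = p + (s + 1) by ring]
        exact this
      by_cases hD : DecD (df (fun k => x (p + k))) r
      · have := hD s (by omega)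
        rw [hdf, hdf] at this
        have e : df x (p + (s + 1)) = df x (p + s + 1) := rfl
        omega
      · rw [gD_non hI hD, hdf, hdf] at h4
        have h5 := of_decide_eq_true h4
        have e : df x (p + (s + 1)) = df x (p + s + 1) := rfl
        omega
    rcases run_aux (fun p => df x (p + s) < df x (p + s + 1)) m hP with h3 | h3
    · apply fin_dec s (by omega)
      intro j hj1 hj2
      obtain ⟨i, rfl⟩ : ∃ i, j = i + s := ⟨j - s, by omega⟩
      have h4 := h3 i (by omega)
      have h5 := hne (i + s) (by omega)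
      have h6 : ¬ df x (i + s) < df x (i + s + 1) := h4
      omega
    · apply fin_inc (m + s) (by omega)
      intro j hj1 hj2
      obtain ⟨i, rfl⟩ : ∃ i, j = i + s := ⟨j - s, by omega⟩
      exact h3 i (by omega) (by omega)

end Pool.Agent.U290.EHS
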