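import Pool.Agent.U290.EHS.Gen

/-! Parity of the numbers of red faces: the sequences which are not monotone. -/

set_option autoImplicit false

namespace Pool.Agent.U290.EHS

open Finset Pool.Agent.H526R2.Delta

/-- Weights of the faces. -/
def wt (L p q i : ℕ) : ℕ := if i = 0 then p else if i = L then q else 1

theorem wt_zero (L p q : ℕ) : wt L p q 0 = p := by rw [wt, if_pos rfl]

theorem wt_last {L p q : ℕ} (h : 1 ≤ L) : wt L p q L = q := by
  rw [wt, if_neg (by omega), if_pos rfl]

theorem wt_mid {L p q i : ℕ} (h0 : i ≠ 0) (h1 : i ≠ L) : wt L p q i = 1 := by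
  rw [wt, if_neg h0, if_neg h1]

theorem sum_wt {L p q : ℕ} (hL : 1 ≤ L) : ∑ i ∈ range (L + 1), wt L p q i = p + q + L - 1 := by
  obtain ⟨M, rfl⟩ : ∃ M, L = M + 1 := ⟨L - 1, by omega⟩
  rw [sum_range_succ, sum_range_succ', wt_last (by omega), wt_zero]
  have : ∑ k ∈ range M, wt (M + 1) p q (k + 1) = M := by
    rw [sum_congr rfl (fun k hk => wt_mid (by omega) (by rw [mem_range] at hk; omega))]
    simp
  rw [this]
  omega

def Good (W n κ : ℕ) : Prop := n % 2 = κ % 2 ∨ n = 0 ∨ n = 2 ∨ n + 2 = W ∨ n = W

theorem sum4 {f : ℕ → ℕ} {n a b c d : ℕ} (ha : a < n) (hb : b < n) (hc : c < n) (hd : d < n)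
    (hab : a ≠ b) (hac : a ≠ c) (had : a ≠ d) (hbc : b ≠ c) (hbd : b ≠ d) (hcd : c ≠ d)
    (h : ∀ i < n, i ≠ a → i ≠ b → i ≠ c → i ≠ d → f i = 0) :
    ∑ i ∈ range n, f i = f a + f b + f c + f d := by
  have h1 : ∑ i ∈ ({a, b, c, d} : Finset ℕ), f i = ∑ i ∈ range n, f i := by
    apply sum_subset
    · intro i hi
      simp only [mem_insert, mem_singleton] at hi
      rw [mem_range]
      rcases hi with rfl | rfl | rfl | rfl <;> assumption
    · intro i hi hn
      simp only [mem_insert, mem_singleton, not_or] at hn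
      exact h i (mem_range.1 hi) hn.1 hn.2.1 hn.2.2.1 hn.2.2.2
  rw [← h1, sum_insert, sum_insert, sum_insert, sum_singleton]
  · ring
  · simp only [mem_singleton]; exact hcd
  · simp only [mem_insert, mem_singleton, not_or]; exact ⟨hbc, hbd⟩
  · simp only [mem_insert, mem_singleton, not_or]; exact ⟨hab, hac, had⟩

/-- Differences of a face. -/
def fc (x : ℕ → ℕ) (i : ℕ) : ℕ → ℕ := df (fun k => x (skip i k))

section

variable {x : ℕ → ℕ} {i j m : ℕ}

theorem fc_lt (h : j + 1 < i) : fc x i j = df x j := df_skip_lt h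

theorem fc_ge (h : i ≤ j) : fc x i j = df x (j + 1) := df_skip_ge h

theorem fc_eq (hx : SM x m) (h : j + 2 < m) : fc x (j + 1) j = max (df x j) (df x (j + 1)) :=
  df_skip_eq hx h

end

noncomputable def col (r : ℕ) (χ1 χ2 : Finset ℕ → Bool) (s : ℕ) (x : ℕ → ℕ) (i : ℕ) : ℕ :=
  (gD r χ1 χ2 s (fc x i)).toNat

section

variable {r s : ℕ} {χ1 χ2 : Finset ℕ → Bool} {x : ℕ → ℕ} {i j k l : ℕ}

theorem col_le : col r χ1 χ2 s x i ≤ 1 := Bool.toNat_le _

theorem col_same (hr : s + 2 ≤ r) (h : ∀ k < r, fc x i k = fc x j k) :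
    col r χ1 χ2 s x i = col r χ1 χ2 s x j := by
  unfold col
  rw [gD_congr hr h]

theorem col_zero' (hI : ¬ IncD (fc x i) r) (hk : k + 1 < r) (h1 : fc x i k < fc x i (k + 1))
    (h2 : fc x i s ≤ fc x i (s + 1)) : col r χ1 χ2 s x i = 0 := by
  unfold col
  rw [gD_non hI]
  · rw [decide_eq_false (by omega)]
    rfl
  · intro h
    have := h k hk
    omega

theorem col_one' (hI : ¬ DecD (fc x i) r) (hk : k + 1 < r) (h1 : fc x i (k + 1) < fc x i k)
    (h2 : fc x i (s + 1) < fc x i s) : col r χ1 χ2 s x i = 1 := by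
  unfold col
  rw [gD_non _ hI]
  · rw [decide_eq_true h2]
    rfl
  · intro h
    have := h k hk
    omega

theorem col_zero (hk : k + 1 < r) (hl : l + 1 < r) (h1 : fc x i k < fc x i (k + 1))
    (h3 : fc x i (l + 1) < fc x i l)
    (h2 : fc x i s ≤ fc x i (s + 1)) : col r χ1 χ2 s x i = 0 :=
  col_zero' (fun h => by have := h l hl; omega) hk h1 h2

theorem col_one (hk : k + 1 < r) (hl : l + 1 < r) (h1 : fc x i k < fc x i (k + 1))
    (h3 : fc x i (l + 1) < fc x i l)
    (h2 : fc x i (s + 1) < fc x i s) : col r χ1 χ2 s x i = 1 :=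
  col_one' (fun h => by have := h k hk; omega) hl h3 h2

end

/-- The number of red faces and the number of blue faces. -/
theorem red_add_blue {L p q : ℕ} (hL : 1 ≤ L) {c : ℕ → ℕ} (hc : ∀ i, c i ≤ 1) :
    ∑ i ∈ range (L + 1), wt L p q i * c i + ∑ i ∈ range (L + 1), wt L p q i * (1 - c i) =
      p + q + L - 1 := by
  rw [← sum_wt hL, ← sum_add_distrib]
  apply sum_congr rfl
  intro i _
  have h := hc i
  have h2 : c i = 0 ∨ c i = 1 := by omega
  rcases h2 with h2 | h2 <;> rw [h2] <;> simp

/-- Even uniformity. -/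
theorem even_case {L p q : ℕ} {χ1 χ2 : Finset ℕ → Bool} {x : ℕ → ℕ} (hL : 4 ≤ L)
    (hLe : L % 2 = 0) (hpar : (p + q + L) % 2 = 0)
    (hx : SM x (L + 1)) (hI : ¬ IncD (df x) L) (hD : ¬ DecD (df x) L) :
    Good (p + q + L - 1) (∑ i ∈ range (L + 1), wt L p q i * col (L - 1) χ1 χ2 0 x i) (p + 1) := by
  have hne0 : df x 0 ≠ df x 1 := df_ne hx (j := 0) (by omega)
  have hne1 : df x 1 ≠ df x 2 := df_ne hx (j := 1) (by omega)
  have f10 : fc x 1 0 = max (df x 0) (df x 1) := fc_eq hx (by omega)
  have f21 : fc x 2 1 = max (df x 1) (df x 2) := fc_eq hx (by omega)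
  have f32 : fc x 3 2 = max (df x 2) (df x 3) := fc_eq hx (by omega)
  have hle : ∀ i, col (L - 1) χ1 χ2 0 x i ≤ 1 := fun i => col_le
  have hsum := red_add_blue (L := L) (p := p) (q := q) (by omega)
    (c := col (L - 1) χ1 χ2 0 x) hle
  rcases lt_or_gt_of_ne hne0 with h01 | h01
  · -- an ascent first
    obtain ⟨j, hj2, hjL, hjd, hjinc, hjf, hjs⟩ := tail_inc hx h01 hI
    have first : ∀ i, 2 ≤ i → fc x i 0 < fc x i 1 := by
      intro i hi
      rw [fc_lt (by omega)]
      rcases Nat.eq_or_lt_of_le hi with h | h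
      · rw [← h, f21]
        omega
      · rw [fc_lt (by omega)]
        exact h01
    have c01 : col (L - 1) χ1 χ2 0 x 0 = col (L - 1) χ1 χ2 0 x 1 := by
      apply col_same (by omega)
      intro k hk
      rw [fc_ge (Nat.zero_le k)]
      rcases Nat.eq_zero_or_pos k with h | h
      · rw [h, f10]
        have e : df x (0 + 1) = df x 1 := rfl
        omega
      · rw [fc_ge h]
    have cz : ∀ i, 2 ≤ i → ¬ IncD (fc x i) (L - 1) → col (L - 1) χ1 χ2 0 x i = 0 :=
      fun i hi h => col_zero' h (k := 0) (by omega) (first i hi) (first i hi).le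
    have cj : col (L - 1) χ1 χ2 0 x j = col (L - 1) χ1 χ2 0 x (j + 1) := by
      rcases hjs with h | ⟨h, h'⟩
      · exact col_same (by omega) h
      · rw [cz j hj2 h, cz (j + 1) (by omega) h']
    have h4 := sum4 (f := fun i => wt L p q i * col (L - 1) χ1 χ2 0 x i) (n := L + 1) (a := 0)
      (b := 1) (c := j) (d := j + 1) (by omega) (by omega) (by omega) (by omega) (by omega)
      (by omega) (by omega) (by omega) (by omega) (by omega) (fun i h1 h2 h3 h4 h5 => by
        show wt L p q i * col (L - 1) χ1 χ2 0 x i = 0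
        rw [cz i (by omega) (hjf i (by omega) (by omega) h4 h5), mul_zero])
    rw [h4, wt_zero, wt_mid (i := 1) (by omega) (by omega), wt_mid (i := j) (by omega) (by omega),
      ← c01, ← cj]
    have y1 := hle 0
    have z1 := hle j
    generalize hy : col (L - 1) χ1 χ2 0 x 0 = y at *
    generalize hz : col (L - 1) χ1 χ2 0 x j = z at *
    by_cases hjl : j + 1 = L
    · have hy0 : y = 0 := by
        rw [← hy]
        apply col_zero (k := 0) (l := j - 2) (by omega) (by omega)
        · rw [fc_ge (Nat.zero_le _), fc_ge (Nat.zero_le _)]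
          exact hjinc 1 (by omega)
        · rw [fc_ge (Nat.zero_le _), fc_ge (Nat.zero_le _)]
          rw [show j - 2 + 1 + 1 = j by omega, show j - 2 + 1 = j - 1 by omega]
          exact hjd
        · rw [fc_ge (Nat.zero_le _), fc_ge (Nat.zero_le _)]
          exact (hjinc 1 (by omega)).le
      rw [hy0, hjl, wt_last (by omega)]
      have h2 : z = 0 ∨ z = 1 := by omega
      unfold Good
      rcases h2 with h2 | h2 <;> rw [h2] <;> omega
    · rw [wt_mid (i := j + 1) (by omega) hjl]
      have h2 : z = 0 ∨ z = 1 := by omega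
      have h3 : y = 0 ∨ y = 1 := by omega
      unfold Good
      rcases h2 with h2 | h2 <;> rcases h3 with h3 | h3 <;> rw [h2, h3] <;> omega
  · rcases lt_or_gt_of_ne hne1 with h12 | h12
    · -- D1 < D0, D1 < D2
      have c12 : col (L - 1) χ1 χ2 0 x 1 = col (L - 1) χ1 χ2 0 x 2 := by
        apply col_same (by omega)
        intro k hk
        rcases Nat.eq_zero_or_pos k with h | h
        · rw [h, f10, fc_lt (by omega)]
          omega
        rcases Nat.eq_or_lt_of_le h with h' | h'
        · rw [← h', fc_ge (by omega)]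
          show df x 2 = fc x 2 1
          rw [f21]
          omega
        · rw [fc_ge (by omega), fc_ge (by omega)]
      have ci : ∀ i, 3 ≤ i → col (L - 1) χ1 χ2 0 x i = 1 := by
        intro i hi
        apply col_one (k := 1) (l := 0) (by omega) (by omega)
        · rw [fc_lt (by omega)]
          show df x 1 < fc x i 2
          rcases Nat.eq_or_lt_of_le hi with h | h
          · rw [← h, f32]
            omega
          · rw [fc_lt (by omega)]
            exact h12
        · rw [fc_lt (by omega), fc_lt (by omega)]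
          exact h01
        · rw [fc_lt (by omega), fc_lt (by omega)]
          exact h01
      have h4 := sum4 (f := fun i => wt L p q i * (1 - col (L - 1) χ1 χ2 0 x i)) (n := L + 1)
        (a := 0) (b := 1) (c := 2) (d := 3) (by omega) (by omega) (by omega) (by omega) (by omega)
        (by omega) (by omega) (by omega) (by omega) (by omega) (fun i h1 h2 h3 h4 h5 => by
          show wt L p q i * (1 - col (L - 1) χ1 χ2 0 x i) = 0
          rw [ci i (by omega)]
          rfl)
      rw [h4, wt_zero, wt_mid (i := 1) (by omega) (by omega), wt_mid (i := 2) (by omega) (by omega),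
        ci 3 le_rfl, ← c12] at hsum
      have y1 := hle 0
      have z1 := hle 1
      generalize col (L - 1) χ1 χ2 0 x 0 = y at *
      generalize col (L - 1) χ1 χ2 0 x 1 = z at *
      generalize ∑ i ∈ range (L + 1), wt L p q i * col (L - 1) χ1 χ2 0 x i = n at *
      have h2 : z = 0 ∨ z = 1 := by omega
      have h3 : y = 0 ∨ y = 1 := by omega
      unfold Good
      rcases h2 with h2 | h2 <;> rcases h3 with h3 | h3 <;> rw [h2, h3] at hsum <;>
        simp only [Nat.sub_self, Nat.sub_zero, mul_one, mul_zero] at hsum <;> omega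
    · -- D2 < D1 < D0
      obtain ⟨j, hj2, hjL, hjd, hjdec, hjf, hjs⟩ := tail_dec hx h01 hD
      have hj3 : 3 ≤ j := by
        by_contra h
        have h' : j = 2 := by omega
        rw [h'] at hjd
        have e : df x (2 - 1) = df x 1 := rfl
        omega
      have ci : ∀ i, i ≤ L → i ≠ j - 1 → i ≠ j → (i = L → j + 1 ≠ L) →
          col (L - 1) χ1 χ2 0 x i = 1 := by
        intro i h1 h2 h3 h4
        have h5 : fc x i 1 < fc x i 0 := by
          rcases Nat.lt_or_ge i 1 with h | h
          · have : i = 0 := by omega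
            rw [this, fc_ge (by omega), fc_ge (by omega)]
            exact h12
          rcases Nat.eq_or_lt_of_le h with h' | h'
          · rw [← h', f10, fc_ge (by omega)]
            show df x 2 < _
            omega
          rcases Nat.eq_or_lt_of_le (Nat.succ_le_of_lt h') with h'' | h''
          · have : i = 2 := by omega
            rw [this, f21, fc_lt (by omega)]
            omega
          · rw [fc_lt (by omega), fc_lt (by omega)]
            exact h01
        exact col_one' (hjf i h1 h2 h3 h4) (k := 0) (by omega) h5 h5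
      have cj : col (L - 1) χ1 χ2 0 x (j - 1) = col (L - 1) χ1 χ2 0 x j :=
        col_same (by omega) hjs
      have h4 := sum4 (f := fun i => wt L p q i * (1 - col (L - 1) χ1 χ2 0 x i)) (n := L + 1)
        (a := 0) (b := j - 1) (c := j) (d := L) (by omega) (by omega) (by omega) (by omega)
        (by omega) (by omega) (by omega) (by omega) (by omega) (by omega)
        (fun i h1 h2 h3 h4 h5 => by
          show wt L p q i * (1 - col (L - 1) χ1 χ2 0 x i) = 0
          rw [ci i (by omega) h3 h4 (fun h => absurd h h5)]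
          rfl)
      rw [h4, ci 0 (by omega) (by omega) (by omega) (by omega),
        wt_mid (i := j - 1) (by omega) (by omega), wt_mid (i := j) (by omega) (by omega),
        wt_last (by omega), cj] at hsum
      have z1 := hle j
      have l1 := hle L
      have hl : j + 1 ≠ L → col (L - 1) χ1 χ2 0 x L = 1 := fun h =>
        ci L le_rfl (by omega) (by omega) (fun _ => h)
      generalize col (L - 1) χ1 χ2 0 x j = z at *
      generalize col (L - 1) χ1 χ2 0 x L = u at *
      generalize ∑ i ∈ range (L + 1), wt L p q i * col (L - 1) χ1 χ2 0 x i = n at *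
      have h2 : z = 0 ∨ z = 1 := by omega
      have h3 : u = 0 ∨ u = 1 := by omega
      unfold Good
      rcases h2 with h2 | h2 <;> rcases h3 with h3 | h3 <;> rw [h2, h3] at hsum <;>
        simp only [Nat.sub_self, Nat.sub_zero, mul_one, mul_zero] at hsum <;> omega

end Pool.Agent.U290.EHS
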