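import Pool.Agent.U290.EHS.Par

/-! Parity of the numbers of red faces, odd uniformity. -/

set_option autoImplicit false

namespace Pool.Agent.U290.EHS

open Finset Pool.Agent.H526R2.Delta

/-- Odd uniformity. -/
theorem odd_case {L p q : ℕ} {χ1 χ2 : Finset ℕ → Bool} {x : ℕ → ℕ} (hL : 5 ≤ L)
    (hLe : L % 2 = 1) (hpar : (p + q + L) % 2 = 0)
    (hx : SM x (L + 1)) (hI : ¬ IncD (df x) L) (hD : ¬ DecD (df x) L) :
    Good (p + q + L - 1) (∑ i ∈ range (L + 1), wt L p q i * col (L - 1) χ1 χ2 1 x i) p := by
  have hne0 : df x 0 ≠ df x 1 := df_ne hx (j := 0) (by omega)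
  have hne1 : df x 1 ≠ df x 2 := df_ne hx (j := 1) (by omega)
  have hne2 : df x 2 ≠ df x 3 := df_ne hx (j := 2) (by omega)
  have hne3 : df x 3 ≠ df x 4 := df_ne hx (j := 3) (by omega)
  have f10 : fc x 1 0 = max (df x 0) (df x 1) := fc_eq hx (by omega)
  have f21 : fc x 2 1 = max (df x 1) (df x 2) := fc_eq hx (by omega)
  have f32 : fc x 3 2 = max (df x 2) (df x 3) := fc_eq hx (by omega)
  have f43 : fc x 4 3 = max (df x 3) (df x 4) := fc_eq hx (by omega)
  have f00 : fc x 0 0 = df x 1 := fc_ge (by omega)
  have f01 : fc x 0 1 = df x 2 := fc_ge (by omega)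
  have f02 : fc x 0 2 = df x 3 := fc_ge (by omega)
  have f11 : fc x 1 1 = df x 2 := fc_ge (by omega)
  have f12 : fc x 1 2 = df x 3 := fc_ge (by omega)
  have f20 : fc x 2 0 = df x 0 := fc_lt (by omega)
  have f22 : fc x 2 2 = df x 3 := fc_ge (by omega)
  have f30 : fc x 3 0 = df x 0 := fc_lt (by omega)
  have f31 : fc x 3 1 = df x 1 := fc_lt (by omega)
  have f33 : fc x 3 3 = df x 4 := fc_ge (by omega)
  have fi0 : ∀ i, 4 ≤ i → fc x i 0 = df x 0 := fun i hi => fc_lt (by omega)
  have fi1 : ∀ i, 4 ≤ i → fc x i 1 = df x 1 := fun i hi => fc_lt (by omega)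
  have fi2 : ∀ i, 4 ≤ i → fc x i 2 = df x 2 := fun i hi => fc_lt (by omega)
  have fi3 : ∀ i, 5 ≤ i → fc x i 3 = df x 3 := fun i hi => fc_lt (by omega)
  have hle : ∀ i, col (L - 1) χ1 χ2 1 x i ≤ 1 := fun i => col_le
  have hsum := red_add_blue (L := L) (p := p) (q := q) (by omega)
    (c := col (L - 1) χ1 χ2 1 x) hle
  rcases lt_or_gt_of_ne hne1 with h12 | h12
  · rcases lt_or_gt_of_ne hne2 with h23 | h23
    · -- D1 < D2 < D3
      rcases lt_or_gt_of_ne hne0 with h01 | h01
      · obtain ⟨j, hj2, hjL, hjd, hjinc, hjf, hjs⟩ := tail_inc hx h01 hI
        have hj4 : 4 ≤ j := by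
          by_contra h
          have h' : j = 2 ∨ j = 3 := by omega
          rcases h' with h' | h' <;> rw [h'] at hjd
          · have e : df x (2 - 1) = df x 1 := rfl
            omega
          · have e : df x (3 - 1) = df x 2 := rfl
            omega
        have cz : ∀ i, 2 ≤ i → ¬ IncD (fc x i) (L - 1) → col (L - 1) χ1 χ2 1 x i = 0 := by
          intro i hi h
          rcases Nat.eq_or_lt_of_le hi with h2 | h2
          · rw [← h2] at h ⊢
            refine col_zero' h (k := 1) (by omega) ?_ ?_
            · show fc x 2 1 < fc x 2 2
              omega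
            · show fc x 2 1 ≤ fc x 2 2
              omega
          rcases Nat.eq_or_lt_of_le (Nat.succ_le_of_lt h2) with h3 | h3
          · have h3' : i = 3 := by omega
            rw [h3'] at h ⊢
            refine col_zero' h (k := 1) (by omega) ?_ ?_
            · show fc x 3 1 < fc x 3 2
              omega
            · show fc x 3 1 ≤ fc x 3 2
              omega
          · have e1 := fi1 i (by omega)
            have e2 := fi2 i (by omega)
            refine col_zero' h (k := 1) (by omega) ?_ ?_
            · show fc x i 1 < fc x i 2
              omega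
            · show fc x i 1 ≤ fc x i 2
              omega
        have c0 : col (L - 1) χ1 χ2 1 x 0 = 0 := by
          refine col_zero (k := 0) (l := j - 2) (by omega) (by omega) ?_ ?_ ?_
          · show fc x 0 0 < fc x 0 1
            omega
          · rw [fc_ge (Nat.zero_le _), fc_ge (Nat.zero_le _)]
            rw [show j - 2 + 1 + 1 = j by omega, show j - 2 + 1 = j - 1 by omega]
            exact hjd
          · show fc x 0 1 ≤ fc x 0 2
            omega
        have c01 : col (L - 1) χ1 χ2 1 x 0 = col (L - 1) χ1 χ2 1 x 1 := by
          apply col_same (by omega)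
          intro k hk
          rw [fc_ge (Nat.zero_le k)]
          rcases Nat.eq_zero_or_pos k with h | h
          · rw [h, f10]
            have e : df x (0 + 1) = df x 1 := rfl
            omega
          · rw [fc_ge h]
        have cj : col (L - 1) χ1 χ2 1 x j = col (L - 1) χ1 χ2 1 x (j + 1) := by
          rcases hjs with h | ⟨h, h'⟩
          · exact col_same (by omega) h
          · rw [cz j hj2 h, cz (j + 1) (by omega) h']
        have h4 := sum4 (f := fun i => wt L p q i * col (L - 1) χ1 χ2 1 x i) (n := L + 1) (a := 0)
          (b := 1) (c := j) (d := j + 1) (by omega) (by omega) (by omega) (by omega) (by omega)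
          (by omega) (by omega) (by omega) (by omega) (by omega) (fun i h1 h2 h3 h4 h5 => by
            show wt L p q i * col (L - 1) χ1 χ2 1 x i = 0
            rw [cz i (by omega) (hjf i (by omega) (by omega) h4 h5), mul_zero])
        rw [h4, wt_zero, wt_mid (i := 1) (by omega) (by omega),
          wt_mid (i := j) (by omega) (by omega), ← c01, ← cj, c0]
        have z1 := hle j
        generalize hz : col (L - 1) χ1 χ2 1 x j = z at *
        have h2 : z = 0 ∨ z = 1 := by omega
        by_cases hjl : j + 1 = L
        · rw [hjl, wt_last (by omega)]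
          unfold Good
          rcases h2 with h2 | h2 <;> rw [h2] <;> omega
        · rw [wt_mid (i := j + 1) (by omega) hjl]
          unfold Good
          rcases h2 with h2 | h2 <;> rw [h2] <;> omega
      · -- D1 < D0
        have c12 : col (L - 1) χ1 χ2 1 x 1 = col (L - 1) χ1 χ2 1 x 2 := by
          apply col_same (by omega)
          intro k hk
          rcases Nat.eq_zero_or_pos k with h | h
          · rw [h]
            omega
          rcases Nat.eq_or_lt_of_le h with h' | h'
          · rw [← h']
            show fc x 1 1 = fc x 2 1
            omega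
          · rw [fc_ge (by omega), fc_ge (by omega)]
        have ci : ∀ i, 3 ≤ i → col (L - 1) χ1 χ2 1 x i = 0 := by
          intro i hi
          rcases Nat.eq_or_lt_of_le hi with h | h
          · rw [← h]
            refine col_zero (k := 1) (l := 0) (by omega) (by omega) ?_ ?_ ?_
            · show fc x 3 1 < fc x 3 2
              omega
            · show fc x 3 1 < fc x 3 0
              omega
            · show fc x 3 1 ≤ fc x 3 2
              omega
          · have e0 := fi0 i (by omega)
            have e1 := fi1 i (by omega)
            have e2 := fi2 i (by omega)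
            refine col_zero (k := 1) (l := 0) (by omega) (by omega) ?_ ?_ ?_
            · show fc x i 1 < fc x i 2
              omega
            · show fc x i 1 < fc x i 0
              omega
            · show fc x i 1 ≤ fc x i 2
              omega
        have h4 := sum4 (f := fun i => wt L p q i * col (L - 1) χ1 χ2 1 x i) (n := L + 1) (a := 0)
          (b := 1) (c := 2) (d := 3) (by omega) (by omega) (by omega) (by omega) (by omega)
          (by omega) (by omega) (by omega) (by omega) (by omega) (fun i h1 h2 h3 h4 h5 => by
            show wt L p q i * col (L - 1) χ1 χ2 1 x i = 0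
            rw [ci i (by omega), mul_zero])
        rw [h4, wt_zero, wt_mid (i := 1) (by omega) (by omega),
          wt_mid (i := 2) (by omega) (by omega), ← c12, ci 3 le_rfl]
        have y1 := hle 0
        have z1 := hle 1
        generalize col (L - 1) χ1 χ2 1 x 0 = y at *
        generalize col (L - 1) χ1 χ2 1 x 1 = z at *
        have h2 : z = 0 ∨ z = 1 := by omega
        have h3 : y = 0 ∨ y = 1 := by omega
        unfold Good
        rcases h2 with h2 | h2 <;> rcases h3 with h3 | h3 <;> rw [h2, h3] <;> omega
    · -- D1 < D2, D3 < D2
      have c0 : col (L - 1) χ1 χ2 1 x 0 = 1 := by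
        refine col_one (k := 0) (l := 1) (by omega) (by omega) ?_ ?_ ?_
        · show fc x 0 0 < fc x 0 1
          omega
        · show fc x 0 2 < fc x 0 1
          omega
        · show fc x 0 2 < fc x 0 1
          omega
      have c12 : col (L - 1) χ1 χ2 1 x 1 = col (L - 1) χ1 χ2 1 x 2 := by
        rcases lt_or_gt_of_ne hne0 with h01 | h01
        · rw [col_one (i := 1) (k := 0) (l := 1) (by omega) (by omega)
            (by show fc x 1 0 < fc x 1 1; omega) (by show fc x 1 2 < fc x 1 1; omega)
            (by show fc x 1 2 < fc x 1 1; omega),
            col_one (i := 2) (k := 0) (l := 1) (by omega) (by omega)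
            (by show fc x 2 0 < fc x 2 1; omega) (by show fc x 2 2 < fc x 2 1; omega)
            (by show fc x 2 2 < fc x 2 1; omega)]
        · apply col_same (by omega)
          intro k hk
          rcases Nat.eq_zero_or_pos k with h | h
          · rw [h]
            omega
          rcases Nat.eq_or_lt_of_le h with h' | h'
          · rw [← h']
            show fc x 1 1 = fc x 2 1
            omega
          · rw [fc_ge (by omega), fc_ge (by omega)]
      have c34 : col (L - 1) χ1 χ2 1 x 3 = col (L - 1) χ1 χ2 1 x 4 := by
        have e0 := fi0 4 le_rfl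
        have e1 := fi1 4 le_rfl
        have e2 := fi2 4 le_rfl
        rcases lt_or_gt_of_ne hne3 with h34 | h34
        · apply col_same (by omega)
          intro k hk
          have hk4 : k = 0 ∨ k = 1 ∨ k = 2 ∨ k = 3 ∨ 4 ≤ k := by omega
          rcases hk4 with h | h | h | h | h
          · rw [h]; omega
          · rw [h]; omega
          · rw [h]; omega
          · rw [h]; omega
          · rw [fc_ge (by omega), fc_ge (by omega)]
        · rw [col_zero (i := 3) (k := 1) (l := 2) (by omega) (by omega)
            (by show fc x 3 1 < fc x 3 2; omega) (by show fc x 3 3 < fc x 3 2; omega)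
            (by show fc x 3 1 ≤ fc x 3 2; omega),
            col_zero (i := 4) (k := 1) (l := 2) (by omega) (by omega)
            (by show fc x 4 1 < fc x 4 2; omega) (by show fc x 4 3 < fc x 4 2; omega)
            (by show fc x 4 1 ≤ fc x 4 2; omega)]
      have ci : ∀ i, 5 ≤ i → col (L - 1) χ1 χ2 1 x i = 0 := by
        intro i hi
        have e1 := fi1 i (by omega)
        have e2 := fi2 i (by omega)
        have e3 := fi3 i (by omega)
        refine col_zero (k := 1) (l := 2) (by omega) (by omega) ?_ ?_ ?_
        · show fc x i 1 < fc x i 2
          omega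
        · show fc x i 3 < fc x i 2
          omega
        · show fc x i 1 ≤ fc x i 2
          omega
      -- five faces
      have h5 : ∑ i ∈ range (L + 1), wt L p q i * col (L - 1) χ1 χ2 1 x i =
          wt L p q 0 * col (L - 1) χ1 χ2 1 x 0 + wt L p q 1 * col (L - 1) χ1 χ2 1 x 1 +
          wt L p q 2 * col (L - 1) χ1 χ2 1 x 2 + wt L p q 3 * col (L - 1) χ1 χ2 1 x 3 +
          wt L p q 4 * col (L - 1) χ1 χ2 1 x 4 := by
        obtain ⟨M, rfl⟩ : ∃ M, L = M + 4 := ⟨L - 4, by omega⟩
        rw [show M + 4 + 1 = 5 + M by omega, sum_range_add]
        have h6 : ∑ k ∈ range M, wt (M + 4) p q (5 + k) * col (M + 4 - 1) χ1 χ2 1 x (5 + k) = 0 :=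
          sum_eq_zero (fun k _ => by rw [ci (5 + k) (by omega), mul_zero])
        rw [h6, sum_range_succ, sum_range_succ, sum_range_succ, sum_range_succ, sum_range_succ,
          sum_range_zero]
        omega
      rw [h5, wt_zero, wt_mid (i := 1) (by omega) (by omega),
        wt_mid (i := 2) (by omega) (by omega), wt_mid (i := 3) (by omega) (by omega),
        wt_mid (i := 4) (by omega) (by omega), ← c12, ← c34, c0]
      left
      omega
  · rcases lt_or_gt_of_ne hne2 with h23 | h23
    · -- D2 < D1, D2 < D3
      have c0 : col (L - 1) χ1 χ2 1 x 0 = 0 := by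
        refine col_zero (k := 1) (l := 0) (by omega) (by omega) ?_ ?_ ?_
        · show fc x 0 1 < fc x 0 2
          omega
        · show fc x 0 1 < fc x 0 0
          omega
        · show fc x 0 1 ≤ fc x 0 2
          omega
      have c1 : col (L - 1) χ1 χ2 1 x 1 = 0 := by
        refine col_zero (k := 1) (l := 0) (by omega) (by omega) ?_ ?_ ?_
        · show fc x 1 1 < fc x 1 2
          omega
        · show fc x 1 1 < fc x 1 0
          omega
        · show fc x 1 1 ≤ fc x 1 2
          omega
      have c23 : col (L - 1) χ1 χ2 1 x 2 = col (L - 1) χ1 χ2 1 x 3 := by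
        apply col_same (by omega)
        intro k hk
        have hk4 : k = 0 ∨ k = 1 ∨ k = 2 ∨ 3 ≤ k := by omega
        rcases hk4 with h | h | h | h
        · rw [h]; omega
        · rw [h]; omega
        · rw [h]; omega
        · rw [fc_ge (by omega), fc_ge (by omega)]
      have ci : ∀ i, 4 ≤ i → col (L - 1) χ1 χ2 1 x i = 1 := by
        intro i hi
        have e1 := fi1 i (by omega)
        have e2 := fi2 i (by omega)
        have e3 : df x 2 < fc x i 3 := by
          rcases Nat.eq_or_lt_of_le hi with h | h
          · rw [← h]
            omega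
          · rw [fi3 i (by omega)]
            exact h23
        refine col_one (k := 2) (l := 1) (by omega) (by omega) ?_ ?_ ?_
        · show fc x i 2 < fc x i 3
          omega
        · show fc x i 2 < fc x i 1
          omega
        · show fc x i 2 < fc x i 1
          omega
      have h4 := sum4 (f := fun i => wt L p q i * (1 - col (L - 1) χ1 χ2 1 x i)) (n := L + 1)
        (a := 0) (b := 1) (c := 2) (d := 3) (by omega) (by omega) (by omega) (by omega) (by omega)
        (by omega) (by omega) (by omega) (by omega) (by omega) (fun i h1 h2 h3 h4 h5 => by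
          show wt L p q i * (1 - col (L - 1) χ1 χ2 1 x i) = 0
          rw [ci i (by omega)]
          rfl)
      rw [h4, wt_zero, wt_mid (i := 1) (by omega) (by omega),
        wt_mid (i := 2) (by omega) (by omega), wt_mid (i := 3) (by omega) (by omega), c0, c1,
        ← c23] at hsum
      have z1 := hle 2
      generalize col (L - 1) χ1 χ2 1 x 2 = z at *
      generalize ∑ i ∈ range (L + 1), wt L p q i * col (L - 1) χ1 χ2 1 x i = n at *
      have h2 : z = 0 ∨ z = 1 := by omega
      unfold Good
      rcases h2 with h2 | h2 <;> rw [h2] at hsum <;>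
        simp only [Nat.sub_self, Nat.sub_zero, mul_one, mul_zero] at hsum <;> omega
    · -- D3 < D2 < D1
      rcases lt_or_gt_of_ne hne0 with h01 | h01
      · -- D0 < D1
        have c01 : col (L - 1) χ1 χ2 1 x 0 = col (L - 1) χ1 χ2 1 x 1 := by
          apply col_same (by omega)
          intro k hk
          rw [fc_ge (Nat.zero_le k)]
          rcases Nat.eq_zero_or_pos k with h | h
          · rw [h, f10]
            have e : df x (0 + 1) = df x 1 := rfl
            omega
          · rw [fc_ge h]
        have ci : ∀ i, 2 ≤ i → col (L - 1) χ1 χ2 1 x i = 1 := by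
          intro i hi
          have hi4 : i = 2 ∨ i = 3 ∨ 4 ≤ i := by omega
          rcases hi4 with h | h | h
          · rw [h]
            refine col_one (k := 0) (l := 1) (by omega) (by omega) ?_ ?_ ?_
            · show fc x 2 0 < fc x 2 1
              omega
            · show fc x 2 2 < fc x 2 1
              omega
            · show fc x 2 2 < fc x 2 1
              omega
          · rw [h]
            refine col_one (k := 0) (l := 1) (by omega) (by omega) ?_ ?_ ?_
            · show fc x 3 0 < fc x 3 1
              omega
            · show fc x 3 2 < fc x 3 1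
              omega
            · show fc x 3 2 < fc x 3 1
              omega
          · have e0 := fi0 i (by omega)
            have e1 := fi1 i (by omega)
            have e2 := fi2 i (by omega)
            refine col_one (k := 0) (l := 1) (by omega) (by omega) ?_ ?_ ?_
            · show fc x i 0 < fc x i 1
              omega
            · show fc x i 2 < fc x i 1
              omega
            · show fc x i 2 < fc x i 1
              omega
        have h4 := sum4 (f := fun i => wt L p q i * (1 - col (L - 1) χ1 χ2 1 x i)) (n := L + 1)
          (a := 0) (b := 1) (c := 2) (d := 3) (by omega) (by omega) (by omega) (by omega)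
          (by omega) (by omega) (by omega) (by omega) (by omega) (by omega)
          (fun i h1 h2 h3 h4 h5 => by
            show wt L p q i * (1 - col (L - 1) χ1 χ2 1 x i) = 0
            rw [ci i (by omega)]
            rfl)
        rw [h4, wt_zero, wt_mid (i := 1) (by omega) (by omega),
          wt_mid (i := 2) (by omega) (by omega), ci 3 (by omega), ci 2 le_rfl, ← c01] at hsum
        have y1 := hle 0
        generalize col (L - 1) χ1 χ2 1 x 0 = y at *
        generalize ∑ i ∈ range (L + 1), wt L p q i * col (L - 1) χ1 χ2 1 x i = n at *
        have h3 : y = 0 ∨ y = 1 := by omega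
        unfold Good
        rcases h3 with h3 | h3 <;> rw [h3] at hsum <;>
          simp only [Nat.sub_self, Nat.sub_zero, mul_one, mul_zero] at hsum <;> omega
      · -- D3 < D2 < D1 < D0
        obtain ⟨j, hj2, hjL, hjd, hjdec, hjf, hjs⟩ := tail_dec hx h01 hD
        have hj4 : 4 ≤ j := by
          by_contra h
          have h' : j = 2 ∨ j = 3 := by omega
          rcases h' with h' | h' <;> rw [h'] at hjd
          · have e : df x (2 - 1) = df x 1 := rfl
            omega
          · have e : df x (3 - 1) = df x 2 := rfl
            omega
        have ci : ∀ i, i ≤ L → i ≠ j - 1 → i ≠ j → (i = L → j + 1 ≠ L) →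
            col (L - 1) χ1 χ2 1 x i = 1 := by
          intro i h1 h2 h3 h4
          have h5 : fc x i 2 < fc x i 1 := by
            have hi4 : i = 0 ∨ i = 1 ∨ i = 2 ∨ i = 3 ∨ 4 ≤ i := by omega
            rcases hi4 with h | h | h | h | h
            · rw [h]; omega
            · rw [h]; omega
            · rw [h]; omega
            · rw [h]; omega
            · rw [fi1 i h, fi2 i h]; exact h12
          exact col_one' (hjf i h1 h2 h3 h4) (k := 1) (by omega) h5 h5
        have cj : col (L - 1) χ1 χ2 1 x (j - 1) = col (L - 1) χ1 χ2 1 x j :=
          col_same (by omega) hjs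
        have h4 := sum4 (f := fun i => wt L p q i * (1 - col (L - 1) χ1 χ2 1 x i)) (n := L + 1)
          (a := 0) (b := j - 1) (c := j) (d := L) (by omega) (by omega) (by omega) (by omega)
          (by omega) (by omega) (by omega) (by omega) (by omega) (by omega)
          (fun i h1 h2 h3 h4 h5 => by
            show wt L p q i * (1 - col (L - 1) χ1 χ2 1 x i) = 0
            rw [ci i (by omega) h3 h4 (fun h => absurd h h5)]
            rfl)
        rw [h4, ci 0 (by omega) (by omega) (by omega) (by omega),
          wt_mid (i := j - 1) (by omega) (by omega), wt_mid (i := j) (by omega) (by omega),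
          wt_last (by omega), cj] at hsum
        have z1 := hle j
        have l1 := hle L
        generalize col (L - 1) χ1 χ2 1 x j = z at *
        generalize col (L - 1) χ1 χ2 1 x L = u at *
        generalize ∑ i ∈ range (L + 1), wt L p q i * col (L - 1) χ1 χ2 1 x i = n at *
        have h2 : z = 0 ∨ z = 1 := by omega
        have h3 : u = 0 ∨ u = 1 := by omega
        unfold Good
        rcases h2 with h2 | h2 <;> rcases h3 with h3 | h3 <;> rw [h2, h3] at hsum <;>
          simp only [Nat.sub_self, Nat.sub_zero, mul_one, mul_zero] at hsum <;> omega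

end Pool.Agent.U290.EHS
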