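import Pool.Agent.U290.EHS.Par2
import Pool.Agent.U290.EHS.HomG

/-! Parity of weighted numbers of red faces: induction on the uniformity. -/

set_option autoImplicit false

namespace Pool.Agent.U290.EHS

open Finset Pool.Agent.H526R2.Delta

/-- Weighted number of red faces. -/
noncomputable def cnt (L p q : ℕ) (c : Finset ℕ → Bool) (S : Finset ℕ) : ℕ :=
  ∑ i ∈ range (L + 1), wt L p q i * (c (S.erase (el S i))).toNat

def Inv (L b : ℕ) (c : Finset ℕ → Bool) (N : ℕ) : Prop :=
  ∀ p q : ℕ, 1 ≤ p → 1 ≤ q → (p + q + L) % 2 = 0 → ∀ S ⊆ range N, S.card = L + 1 →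
    Good (p + q + L - 1) (cnt L p q c S) (b + p)

theorem Inv.mono {L b : ℕ} {c : Finset ℕ → Bool} {N N' : ℕ} (h : Inv L b c N) (hN : N' ≤ N) :
    Inv L b c N' := fun p q hp hq hpar S hS =>
  h p q hp hq hpar S (hS.trans (range_subset_range.2 hN))

theorem Inv.congr {L b b' : ℕ} {c : Finset ℕ → Bool} {N : ℕ} (h : Inv L b c N)
    (hb : b % 2 = b' % 2) : Inv L b' c N := by
  intro p q hp hq hpar S hS hc
  have := h p q hp hq hpar S hS hc
  unfold Good at this ⊢
  omega

theorem Inv.not {L b : ℕ} {c : Finset ℕ → Bool} {N : ℕ} (hL : 1 ≤ L) (h : Inv L b c N) :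
    Inv L (b + 1) (fun e => !c e) N := by
  intro p q hp hq hpar S hS hc
  have h1 := h p q hp hq hpar S hS hc
  have h2 := red_add_blue (L := L) (p := p) (q := q) hL
    (c := fun i => (c (S.erase (el S i))).toNat) (fun i => Bool.toNat_le _)
  have h3 : cnt L p q (fun e => !c e) S =
      ∑ i ∈ range (L + 1), wt L p q i * (1 - (c (S.erase (el S i))).toNat) := by
    apply sum_congr rfl
    intro i _
    show wt L p q i * (!c (S.erase (el S i))).toNat = _
    cases c (S.erase (el S i)) <;> rfl
  rw [← h3] at h2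
  have h4 : cnt L p q c S = ∑ i ∈ range (L + 1), wt L p q i * (c (S.erase (el S i))).toNat := rfl
  rw [← h4] at h2
  unfold Good at h1 ⊢
  omega

theorem NoHom.not {r m N : ℕ} {c : Finset ℕ → Bool} (h : NoHom r c m N) :
    NoHom r (fun e => !c e) m N := by
  intro S hS hc q
  obtain ⟨e, h1, h2, h3⟩ := h S hS hc (!q)
  refine ⟨e, h1, h2, ?_⟩
  intro h4
  apply h3
  rw [← h4, Bool.not_not]

theorem Inv.step {L b s : ℕ} {χ1 χ2 : Finset ℕ → Bool} {N : ℕ} (hL : 4 ≤ L)
    (hs : (L % 2 = 0 ∧ s = 0 ∧ b = 1) ∨ (L % 2 = 1 ∧ s = 1 ∧ b = 0))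
    (h1 : Inv (L - 1) (b + 1) χ1 N) (h2 : Inv (L - 1) (b + L - 1) χ2 N) :
    Inv L b (gg (L - 1) χ1 χ2 s) (2 ^ N) := by
  intro p q hp hq hpar S hS hc
  obtain ⟨x, hxd⟩ : ∃ x, x = el S := ⟨_, rfl⟩
  have hx : SM x (L + 1) := by
    have := sm_el S
    rwa [hc, ← hxd] at this
  have hb : ∀ j < L + 1, x j < 2 ^ N := fun j hj => by
    have := hS (el_mem (S := S) (j := j) (by omega))
    rw [← hxd] at this
    simpa using this
  have face : ∀ i ≤ L, (gg (L - 1) χ1 χ2 s (S.erase (el S i))).toNat =
      col (L - 1) χ1 χ2 s x i := by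
    intro i hi
    obtain ⟨M, rfl⟩ : ∃ M, L = M + 1 := ⟨L - 1, by omega⟩
    have hx' : SM (el S) (M + 1 + 1) := by rw [← hxd]; exact hx
    rw [erase_el (m := M + 1) hc hi]
    have h3 := gg_image (r := M) (s := s) (χ1 := χ1) (χ2 := χ2) (by omega) (sm_skip hx' i)
    show (gg M χ1 χ2 s _).toNat = _
    rw [h3, ← hxd]
    rfl
  have hcnt : cnt L p q (gg (L - 1) χ1 χ2 s) S =
      ∑ i ∈ range (L + 1), wt L p q i * col (L - 1) χ1 χ2 s x i := by
    apply sum_congr rfl
    intro i hi
    rw [mem_range] at hi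
    rw [face i (by omega)]
  rw [hcnt]
  have hlt : ∀ j < L, df x j < N := fun j hj =>
    hd_lt (hx _ _ (by omega) (by omega)) (hb _ (by omega))
  by_cases hI : IncD (df x) L
  · -- increasing
    have hSM : SM (df x) L := fun i j hij hj => incD_lt hI hij hj
    obtain ⟨T, hT⟩ : ∃ T, T = (range L).image (df x) := ⟨_, rfl⟩
    have hTc : T.card = L - 1 + 1 := by rw [hT, card_image_sm hSM]; omega
    have hTN : T ⊆ range N := by
      intro v hv
      rw [hT] at hv
      obtain ⟨j, hj, rfl⟩ := mem_image.1 hv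
      rw [mem_range] at hj ⊢
      exact hlt j hj
    have hcol : ∀ i ≤ L, col (L - 1) χ1 χ2 s x i = (χ1 (T.erase (el T (i - 1)))).toNat := by
      intro i hi
      obtain ⟨M, rfl⟩ : ∃ M, L = M + 1 := ⟨L - 1, by omega⟩
      have e1 : ∀ j < M, fc x i j = df x (skip (i - 1) j) := fun j hj => inc_face hx hI hj
      unfold col
      show (gD M χ1 χ2 s (fc x i)).toNat = _
      rw [gD_congr (d' := fun j => df x (skip (i - 1) j)) (by omega) e1,
        gD_inc (incD_comp_skip hI), image_skip hSM (by omega), ← hT]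
      congr 3
      rw [hT]
      exact (el_image hSM (by omega)).symm
    have key : ∑ i ∈ range (L + 1), wt L p q i * col (L - 1) χ1 χ2 s x i =
        cnt (L - 1) (p + 1) q χ1 T := by
      obtain ⟨M, rfl⟩ : ∃ M, L = M + 1 := ⟨L - 1, by omega⟩
      show _ = ∑ i ∈ range (M + 1), wt M (p + 1) q i * (χ1 (T.erase (el T i))).toNat
      rw [sum_range_succ', sum_range_succ', sum_range_succ' (n := M), hcol 0 (by omega),
        hcol (0 + 1) (by omega), wt_zero, wt_zero, wt_mid (i := 0 + 1) (by omega) (by omega)]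
      have h3 : ∑ k ∈ range M, wt (M + 1) p q (k + 1 + 1) *
          col (M + 1 - 1) χ1 χ2 s x (k + 1 + 1) =
          ∑ k ∈ range M, wt M (p + 1) q (k + 1) * (χ1 (T.erase (el T (k + 1)))).toNat := by
        apply sum_congr rfl
        intro k hk
        rw [mem_range] at hk
        rw [hcol (k + 1 + 1) (by omega)]
        have h4 : wt (M + 1) p q (k + 1 + 1) = wt M (p + 1) q (k + 1) := by
          by_cases h5 : k + 1 = M
          · rw [h5, wt_last (by omega), wt_last (by omega)]
          · rw [wt_mid (by omega) (by omega), wt_mid (by omega) (by omega)]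
        rw [h4]
        rfl
      rw [h3]
      show _ + 1 * (χ1 (T.erase (el T 0))).toNat + p * (χ1 (T.erase (el T 0))).toNat = _
      ring
    rw [key]
    have h3 := h1 (p + 1) q (by omega) hq (by omega) T hTN hTc
    unfold Good at h3 ⊢
    omega
  by_cases hD : DecD (df x) L
  · have hSM : SM (fun j => df x (L - 1 - j)) L := fun i j hij hj =>
      decD_lt hD (by omega) (by omega)
    obtain ⟨T, hT⟩ : ∃ T, T = (range L).image (df x) := ⟨_, rfl⟩
    have hT' : T = (range L).image (fun j => df x (L - 1 - j)) := by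
      rw [hT]
      ext v
      simp only [mem_image, mem_range]
      constructor
      · rintro ⟨j, hj, rfl⟩
        exact ⟨L - 1 - j, by omega, by congr 1; omega⟩
      · rintro ⟨j, hj, rfl⟩
        exact ⟨L - 1 - j, by omega, rfl⟩
    have hTc : T.card = L - 1 + 1 := by rw [hT', card_image_sm hSM]; omega
    have hTN : T ⊆ range N := by
      intro v hv
      rw [hT] at hv
      obtain ⟨j, hj, rfl⟩ := mem_image.1 hv
      rw [mem_range] at hj ⊢
      exact hlt j hj
    have hcol : ∀ i ≤ L, col (L - 1) χ1 χ2 s x i =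
        (χ2 (T.erase (el T (L - 1 - min i (L - 1))))).toNat := by
      intro i hi
      obtain ⟨M, rfl⟩ : ∃ M, L = M + 1 := ⟨L - 1, by omega⟩
      have e1 : ∀ j < M, fc x i j = df x (skip (min i M) j) := fun j hj => dec_face hx hD hj
      have e2 : el T (M + 1 - 1 - min i (M + 1 - 1)) = df x (min i M) := by
        have h5 := el_image (x := fun j => df x (M + 1 - 1 - j)) (m := M + 1) hSM
          (j := M + 1 - 1 - min i (M + 1 - 1)) (by omega)
        rw [← hT'] at h5
        rw [h5]
        congr 1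
        omega
      rw [e2]
      unfold col
      show (gD M χ1 χ2 s (fc x i)).toNat = _
      have hdec := decD_comp_skip (k := min i M) hD
      have hninc : ¬ IncD (fun j => df x (skip (min i M) j)) M := by
        intro h6
        have h7 := h6 0 (by omega)
        have h8 := hdec 0 (by omega)
        omega
      rw [gD_congr (d' := fun j => df x (skip (min i M) j)) (by omega) e1,
        gD_dec hninc hdec, image_skip' (decD_inj hD) (by omega), ← hT]
    have key : ∑ i ∈ range (L + 1), wt L p q i * col (L - 1) χ1 χ2 s x i =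
        cnt (L - 1) (q + 1) p χ2 T := by
      obtain ⟨M, rfl⟩ : ∃ M, L = M + 1 := ⟨L - 1, by omega⟩
      show _ = ∑ i ∈ range (M + 1), wt M (q + 1) p i * (χ2 (T.erase (el T i))).toNat
      rw [sum_range_succ, hcol (M + 1) le_rfl, wt_last (by omega),
        ← sum_range_reflect (fun i => wt (M + 1) p q i * col (M + 1 - 1) χ1 χ2 s x i) (M + 1),
        sum_range_succ' (n := M), sum_range_succ' (n := M)]
      have h3 : ∑ k ∈ range M, wt (M + 1) p q (M + 1 - 1 - (k + 1)) *
          col (M + 1 - 1) χ1 χ2 s x (M + 1 - 1 - (k + 1)) =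
          ∑ k ∈ range M, wt M (q + 1) p (k + 1) * (χ2 (T.erase (el T (k + 1)))).toNat := by
        apply sum_congr rfl
        intro k hk
        rw [mem_range] at hk
        rw [hcol (M + 1 - 1 - (k + 1)) (by omega)]
        have h4 : wt (M + 1) p q (M + 1 - 1 - (k + 1)) = wt M (q + 1) p (k + 1) := by
          by_cases h5 : k + 1 = M
          · rw [h5, wt_last (by omega), show M + 1 - 1 - M = 0 by omega, wt_zero]
          · rw [wt_mid (by omega) (by omega), wt_mid (by omega) (by omega)]
        rw [h4, show M + 1 - 1 - min (M + 1 - 1 - (k + 1)) (M + 1 - 1) = k + 1 by omega]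
      rw [h3, hcol (M + 1 - 1 - 0) (by omega), wt_zero,
        wt_mid (i := M + 1 - 1 - 0) (by omega) (by omega),
        show M + 1 - 1 - min (M + 1 - 1 - 0) (M + 1 - 1) = 0 by omega,
        show M + 1 - 1 - min (M + 1) (M + 1 - 1) = 0 by omega]
      ring
    rw [key]
    have h3 := h2 (q + 1) p (by omega) hp (by omega) T hTN hTc
    unfold Good at h3 ⊢
    omega
  · rcases hs with ⟨hs1, rfl, rfl⟩ | ⟨hs1, rfl, rfl⟩
    · have := even_case (χ1 := χ1) (χ2 := χ2) hL hs1 hpar hx hI hD
      unfold Good at this ⊢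
      omega
    · have := odd_case (χ1 := χ1) (χ2 := χ2) (by omega) hs1 hpar hx hI hD
      unfold Good at this ⊢
      omega

end Pool.Agent.U290.EHS
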