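import Mathlib
import Pool.Agent.H526R2.Delta.Main

/-! Elements of a finite set in increasing order, differences of neighbours, faces. -/

set_option autoImplicit false

namespace Pool.Agent.U290.EHS

open Finset Pool.Agent.H526R2.Delta

/-- The elements of `S` in increasing order. -/
noncomputable def el (S : Finset ℕ) (j : ℕ) : ℕ :=
  if h : j < S.card then S.orderEmbOfFin rfl ⟨j, h⟩ else 0

theorem el_mem {S : Finset ℕ} {j : ℕ} (h : j < S.card) : el S j ∈ S := by
  rw [el, dif_pos h]
  exact Finset.orderEmbOfFin_mem _ _ _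

theorem el_lt {S : Finset ℕ} {i j : ℕ} (hij : i < j) (h : j < S.card) : el S i < el S j := by
  rw [el, dif_pos (hij.trans h), el, dif_pos h]
  exact (S.orderEmbOfFin rfl).strictMono (by simpa using hij)

theorem el_surj {S : Finset ℕ} {a : ℕ} (h : a ∈ S) : ∃ j < S.card, el S j = a := by
  have h1 : a ∈ Set.range (S.orderEmbOfFin rfl) := by
    rw [Finset.range_orderEmbOfFin]; exact h
  obtain ⟨⟨j, hj⟩, hj2⟩ := h1
  exact ⟨j, hj, by rw [el, dif_pos hj]; exact hj2⟩

/-- `x` is strictly increasing on `0, …, m - 1`. -/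
def SM (x : ℕ → ℕ) (m : ℕ) : Prop := ∀ i j, i < j → j < m → x i < x j

theorem sm_el (S : Finset ℕ) : SM (el S) S.card := fun _ _ h1 h2 => el_lt h1 h2

theorem SM.inj {x : ℕ → ℕ} {m : ℕ} (h : SM x m) {i j : ℕ} (hi : i < m) (hj : j < m)
    (hij : x i = x j) : i = j := by
  rcases lt_trichotomy i j with h1 | h1 | h1
  · have := h i j h1 hj; omega
  · exact h1
  · have := h j i h1 hi; omega

theorem card_image_sm {x : ℕ → ℕ} {m : ℕ} (h : SM x m) : ((range m).image x).card = m := by
  rw [Finset.card_image_of_injOn, card_range]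
  intro i hi j hj hij
  exact h.inj (by simpa using hi) (by simpa using hj) hij

theorem el_image {x : ℕ → ℕ} {m : ℕ} (h : SM x m) {j : ℕ} (hj : j < m) :
    el ((range m).image x) j = x j := by
  set S := (range m).image x with hS
  have hc : S.card = m := card_image_sm h
  have h1 : j < S.card := by omega
  have hmem : ∀ i : ℕ, i < m → x i ∈ S := fun i hi => by
    rw [hS]; exact mem_image_of_mem _ (by simpa using hi)
  rw [el, dif_pos h1]
  have h2 := Finset.orderEmbOfFin_unique (s := S) (k := S.card) rfl
    (f := fun i : Fin S.card => x i.1) (fun i => hmem _ (by have := i.2; omega))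
    (fun a b hab => h _ _ hab (by have := b.2; omega))
  have h3 := congrFun h2 ⟨j, h1⟩
  exact h3.symm

theorem image_el (S : Finset ℕ) : (range S.card).image (el S) = S := by
  ext a
  rw [mem_image]
  constructor
  · rintro ⟨j, hj, rfl⟩
    exact el_mem (by simpa using hj)
  · intro h
    obtain ⟨j, hj, h2⟩ := el_surj h
    exact ⟨j, by simpa using hj, h2⟩

/-- The `i`-th number is omitted. -/
def skip (i j : ℕ) : ℕ := if j < i then j else j + 1

theorem skip_lt {i j : ℕ} (h : j < i) : skip i j = j := by rw [skip, if_pos h]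

theorem skip_ge {i j : ℕ} (h : i ≤ j) : skip i j = j + 1 := by rw [skip, if_neg (by omega)]

theorem skip_mono {i j k : ℕ} (h : j < k) : skip i j < skip i k := by
  unfold skip
  split_ifs <;> omega

theorem skip_le {i j : ℕ} : skip i j ≤ j + 1 := by
  unfold skip
  split_ifs <;> omega

theorem skip_ne {i j : ℕ} : skip i j ≠ i := by
  unfold skip
  split_ifs <;> omega

theorem sm_skip {x : ℕ → ℕ} {m : ℕ} (h : SM x (m + 1)) (i : ℕ) : SM (fun j => x (skip i j)) m :=
  fun a b hab hb => h _ _ (skip_mono hab) (by have := skip_le (i := i) (j := b); omega)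

theorem image_skip {x : ℕ → ℕ} {m i : ℕ} (h : SM x (m + 1)) (hi : i ≤ m) :
    (range m).image (fun j => x (skip i j)) = ((range (m + 1)).image x).erase (x i) := by
  ext a
  rw [mem_image, mem_erase, mem_image]
  constructor
  · rintro ⟨j, hj, rfl⟩
    rw [mem_range] at hj
    have h1 := skip_le (i := i) (j := j)
    refine ⟨?_, skip i j, by rw [mem_range]; omega, rfl⟩
    intro h2
    exact skip_ne (h.inj (by omega) (by omega) h2)
  · rintro ⟨h1, j, hj, rfl⟩
    rw [mem_range] at hj
    have h2 : j ≠ i := fun h => h1 (by rw [h])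
    rcases lt_or_gt_of_ne h2 with h3 | h3
    · exact ⟨j, by rw [mem_range]; omega, by rw [skip_lt h3]⟩
    · refine ⟨j - 1, by rw [mem_range]; omega, ?_⟩
      rw [skip_ge (by omega)]
      congr 1
      omega

/-- The faces of a set in terms of its sequence. -/
theorem erase_el {S : Finset ℕ} {m i : ℕ} (hS : S.card = m + 1) (hi : i ≤ m) :
    S.erase (el S i) = (range m).image (fun j => el S (skip i j)) := by
  have h := sm_el S
  rw [hS] at h
  rw [image_skip h hi]
  congr 1
  rw [← hS, image_el]

/-! ### Differences -/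

/-- The highest differing digits of neighbours. -/
def df (x : ℕ → ℕ) (j : ℕ) : ℕ := hd (x j) (x (j + 1))

theorem hd_ne {x y z : ℕ} (h1 : x < y) (h2 : y < z) : hd x y ≠ hd y z :=
  (isDelta_hd Set.univ x trivial y trivial z trivial h1 h2).1

theorem hd_max {x y z : ℕ} (h1 : x < y) (h2 : y < z) : hd x z = max (hd x y) (hd y z) :=
  (isDelta_hd Set.univ x trivial y trivial z trivial h1 h2).2

theorem df_ne {x : ℕ → ℕ} {m j : ℕ} (h : SM x m) (hj : j + 2 < m) : df x j ≠ df x (j + 1) :=
  hd_ne (h _ _ (by omega) (by omega)) (h _ _ (by omega) (by omega))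

theorem df_skip_lt {x : ℕ → ℕ} {i j : ℕ} (h : j + 1 < i) :
    df (fun j => x (skip i j)) j = df x j := by
  unfold df
  simp only []
  rw [skip_lt (by omega), skip_lt h]

theorem df_skip_ge {x : ℕ → ℕ} {i j : ℕ} (h : i ≤ j) :
    df (fun j => x (skip i j)) j = df x (j + 1) := by
  unfold df
  simp only []
  rw [skip_ge (by omega), skip_ge (by omega)]

theorem df_skip_eq {x : ℕ → ℕ} {m j : ℕ} (hx : SM x m) (hj : j + 2 < m) :
    df (fun k => x (skip (j + 1) k)) j = max (df x j) (df x (j + 1)) := by
  unfold df
  simp only []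
  rw [skip_lt (by omega), skip_ge (by omega)]
  exact hd_max (hx _ _ (by omega) (by omega)) (hx _ _ (by omega) (by omega))

/-- Increasing run. -/
theorem hd_inc {x : ℕ → ℕ} {m a b : ℕ} (hx : SM x m) (hab : a ≤ b) (hb : b + 1 < m)
    (h : ∀ j, a ≤ j → j < b → df x j < df x (j + 1)) : hd (x a) (x (b + 1)) = df x b := by
  induction b, hab using Nat.le_induction with
  | base => rfl
  | succ b hab ih =>
    have h1 := ih (by omega) (fun j h1 h2 => h j h1 (by omega))
    rw [hd_max (hx a (b + 1) (by omega) (by omega)) (hx (b + 1) (b + 1 + 1) (by omega) (by omega)),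
      h1]
    have h2 := h b hab (by omega)
    show max (df x b) (df x (b + 1)) = df x (b + 1)
    omega

/-- Decreasing run. -/
theorem hd_dec {x : ℕ → ℕ} {m a b : ℕ} (hx : SM x m) (hab : a ≤ b) (hb : b + 1 < m)
    (h : ∀ j, a ≤ j → j < b → df x (j + 1) < df x j) : hd (x a) (x (b + 1)) = df x a := by
  induction b, hab using Nat.le_induction with
  | base => rfl
  | succ b hab ih =>
    have h1 := ih (by omega) (fun j h1 h2 => h j h1 (by omega))
    rw [hd_max (hx a (b + 1) (by omega) (by omega)) (hx (b + 1) (b + 1 + 1) (by omega) (by omega)),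
      h1]
    have h2 : ∀ c, a ≤ c → c ≤ b → df x (c + 1) < df x a := by
      intro c hc
      induction c, hc using Nat.le_induction with
      | base => intro h3; exact h a le_rfl (by omega)
      | succ c hc ih2 =>
        intro h3
        have h4 := ih2 (by omega)
        have h5 := h (c + 1) (by omega) (by omega)
        omega
    have h3 := h2 b hab le_rfl
    show max (df x a) (df x (b + 1)) = df x a
    omega

end Pool.Agent.U290.EHS
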