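import Pool.Agent.U290.EHS.Seq

/-! The stepping-up colouring keeps the property that no `r + 1` points span exactly one red set. -/

set_option autoImplicit false

namespace Pool.Agent.U290.EHS

open Finset Pool.Agent.H526R2.Delta

def IncD (d : ℕ → ℕ) (r : ℕ) : Prop := ∀ j, j + 1 < r → d j < d (j + 1)

def DecD (d : ℕ → ℕ) (r : ℕ) : Prop := ∀ j, j + 1 < r → d (j + 1) < d j

open Classical in
/-- The colour of the sequence of differences. -/
noncomputable def upD (r : ℕ) (χ : Finset ℕ → Bool) (d : ℕ → ℕ) : Bool :=
  if IncD d r ∨ DecD d r then χ ((range r).image d) else decide (d 1 < d 0)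

theorem upD_mono {r : ℕ} {χ : Finset ℕ → Bool} {d : ℕ → ℕ} (h : IncD d r ∨ DecD d r) :
    upD r χ d = χ ((range r).image d) := by rw [upD, if_pos h]

theorem upD_non {r : ℕ} {χ : Finset ℕ → Bool} {d : ℕ → ℕ} (h : ¬ IncD d r) (h' : ¬ DecD d r) :
    upD r χ d = decide (d 1 < d 0) := by rw [upD, if_neg (by tauto)]

theorem upD_congr {r : ℕ} {χ : Finset ℕ → Bool} {d d' : ℕ → ℕ} (hr : 2 ≤ r)
    (h : ∀ j < r, d j = d' j) : upD r χ d = upD r χ d' := by
  have h1 : IncD d r ↔ IncD d' r := by
    unfold IncD
    refine forall_congr' fun j => forall_congr' fun hj => ?_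
    rw [h j (by omega), h (j + 1) (by omega)]
  have h2 : DecD d r ↔ DecD d' r := by
    unfold DecD
    refine forall_congr' fun j => forall_congr' fun hj => ?_
    rw [h j (by omega), h (j + 1) (by omega)]
  have h3 : (range r).image d = (range r).image d' :=
    Finset.image_congr (fun j hj => h j (by simpa using hj))
  unfold upD
  rw [h3, h 1 (by omega), h 0 (by omega)]
  by_cases h4 : IncD d r ∨ DecD d r
  · rw [if_pos h4, if_pos (by rwa [← h1, ← h2])]
  · rw [if_neg h4, if_neg (by rwa [← h1, ← h2])]

/-- The stepping-up colouring of the `r + 1`-sets. -/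
noncomputable def up (r : ℕ) (χ : Finset ℕ → Bool) (S : Finset ℕ) : Bool := upD r χ (df (el S))

theorem up_image {r : ℕ} {χ : Finset ℕ → Bool} {x : ℕ → ℕ} (hr : 2 ≤ r) (h : SM x (r + 1)) :
    up r χ ((range (r + 1)).image x) = upD r χ (df x) := by
  apply upD_congr hr
  intro j hj
  unfold df
  rw [el_image h (by omega), el_image h (by omega)]

/-- No `r + 1` points below `N` span exactly one red `r`-set. -/
def NoOne (r : ℕ) (χ : Finset ℕ → Bool) (N : ℕ) : Prop :=
  ∀ S ⊆ range N, S.card = r + 1 → ∀ a ∈ S, χ (S.erase a) = true →
    ∃ b ∈ S, b ≠ a ∧ χ (S.erase b) = true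

theorem image_skip' {x : ℕ → ℕ} {m i : ℕ}
    (h : ∀ i j, i < m + 1 → j < m + 1 → x i = x j → i = j) (hi : i ≤ m) :
    (range m).image (fun j => x (skip i j)) = ((range (m + 1)).image x).erase (x i) := by
  ext a
  rw [mem_image, mem_erase, mem_image]
  constructor
  · rintro ⟨j, hj, rfl⟩
    rw [mem_range] at hj
    have h1 := skip_le (i := i) (j := j)
    refine ⟨?_, skip i j, by rw [mem_range]; omega, rfl⟩
    intro h2
    exact skip_ne (h _ _ (by omega) (by omega) h2)
  · rintro ⟨h1, j, hj, rfl⟩
    rw [mem_range] at hj
    have h2 : j ≠ i := fun h => h1 (by rw [h])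
    rcases lt_or_gt_of_ne h2 with h3 | h3
    · exact ⟨j, by rw [mem_range]; omega, by rw [skip_lt h3]⟩
    · refine ⟨j - 1, by rw [mem_range]; omega, ?_⟩
      rw [skip_ge (by omega)]
      congr 1
      omega

theorem incD_lt {d : ℕ → ℕ} {r i j : ℕ} (h : IncD d r) (hij : i < j) (hj : j < r) : d i < d j := by
  induction j, hij using Nat.le_induction with
  | base => exact h i hj
  | succ j hj2 ih => exact (ih (by omega)).trans (h j hj)

theorem decD_lt {d : ℕ → ℕ} {r i j : ℕ} (h : DecD d r) (hij : i < j) (hj : j < r) : d j < d i := by
  induction j, hij using Nat.le_induction with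
  | base => exact h i hj
  | succ j hj2 ih => exact (h j hj).trans (ih (by omega))

theorem incD_inj {d : ℕ → ℕ} {r : ℕ} (h : IncD d r) (i j : ℕ) (hi : i < r) (hj : j < r)
    (hij : d i = d j) : i = j := by
  rcases lt_trichotomy i j with h1 | h1 | h1
  · have := incD_lt h h1 hj; omega
  · exact h1
  · have := incD_lt h h1 hi; omega

theorem decD_inj {d : ℕ → ℕ} {r : ℕ} (h : DecD d r) (i j : ℕ) (hi : i < r) (hj : j < r)
    (hij : d i = d j) : i = j := by
  rcases lt_trichotomy i j with h1 | h1 | h1
  · have := decD_lt h h1 hj; omega
  · exact h1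
  · have := decD_lt h h1 hi; omega

section faces

variable {r N : ℕ} {χ : Finset ℕ → Bool} {x : ℕ → ℕ}

/-- The faces in the monotone case: common part. -/
theorem mono_aux (hχ : NoOne r χ N) (hx : SM x (r + 2))
    (hb : ∀ j < r + 2, x j < 2 ^ N)
    (hinj : ∀ i j, i < r + 1 → j < r + 1 → df x i = df x j → i = j) {k : ℕ} (hk : k ≤ r)
    (h : χ ((range r).image (fun j => df x (skip k j))) = true) :
    ∃ k' ≤ r, k' ≠ k ∧ χ ((range r).image (fun j => df x (skip k' j))) = true := by
  have hT : (range (r + 1)).image (df x) ⊆ range N := by
    intro a ha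
    rw [mem_image] at ha
    obtain ⟨j, hj, rfl⟩ := ha
    rw [mem_range] at hj ⊢
    exact hd_lt (hx _ _ (by omega) (by omega)) (hb _ (by omega))
  have hc : ((range (r + 1)).image (df x)).card = r + 1 := by
    rw [Finset.card_image_of_injOn, card_range]
    intro i hi j hj hij
    exact hinj i j (by simpa using hi) (by simpa using hj) hij
  rw [image_skip' hinj hk] at h
  obtain ⟨b, hb1, hb2, hb3⟩ := hχ _ hT hc (df x k) (mem_image_of_mem _ (by simp; omega)) h
  rw [mem_image] at hb1
  obtain ⟨k', hk', rfl⟩ := hb1
  rw [mem_range] at hk'
  refine ⟨k', by omega, fun h => hb2 (by rw [h]), ?_⟩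
  rw [image_skip' hinj (by omega)]
  exact hb3

theorem inc_face (hx : SM x (r + 2)) (hI : IncD (df x) (r + 1)) {i : ℕ}
    {j : ℕ} (hj : j < r) : df (fun k => x (skip i k)) j = df x (skip (i - 1) j) := by
  rcases Nat.lt_or_ge (j + 1) i with h | h
  · rw [df_skip_lt h, skip_lt (by omega)]
  rcases Nat.eq_or_lt_of_le h with h1 | h1
  · subst h1
    rw [df_skip_eq hx (by omega), skip_ge (by omega)]
    have := hI j (by omega)
    omega
  · rw [df_skip_ge (by omega), skip_ge (by omega)]

theorem dec_face (hx : SM x (r + 2)) (hI : DecD (df x) (r + 1)) {i : ℕ}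
    {j : ℕ} (hj : j < r) : df (fun k => x (skip i k)) j = df x (skip (min i r) j) := by
  rcases Nat.lt_or_ge (j + 1) i with h | h
  · rw [df_skip_lt h, skip_lt (by omega)]
  rcases Nat.eq_or_lt_of_le h with h1 | h1
  · subst h1
    rw [df_skip_eq hx (by omega), skip_lt (by omega)]
    have := hI j (by omega)
    omega
  · rw [df_skip_ge (by omega), skip_ge (by omega)]

theorem incD_comp_skip {d : ℕ → ℕ} {k : ℕ} (h : IncD d (r + 1)) :
    IncD (fun j => d (skip k j)) r := fun j hj => by
  have h1 := skip_mono (i := k) (j := j) (k := j + 1) (by omega)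
  have h2 := skip_le (i := k) (j := j + 1)
  exact incD_lt h h1 (by omega)

theorem decD_comp_skip {d : ℕ → ℕ} {k : ℕ} (h : DecD d (r + 1)) :
    DecD (fun j => d (skip k j)) r := fun j hj => by
  have h1 := skip_mono (i := k) (j := j) (k := j + 1) (by omega)
  have h2 := skip_le (i := k) (j := j + 1)
  exact decD_lt h h1 (by omega)

theorem face_of_skip (hr : 2 ≤ r) (h : IncD (df x) (r + 1) ∨ DecD (df x) (r + 1)) {i k : ℕ}
    (he : ∀ j < r, df (fun k => x (skip i k)) j = df x (skip k j)) :
    upD r χ (df (fun k => x (skip i k))) = χ ((range r).image (fun j => df x (skip k j))) := by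
  rw [upD_congr hr he, upD_mono]
  rcases h with h | h
  · exact Or.inl (incD_comp_skip h)
  · exact Or.inr (decD_comp_skip h)

/-- The main case analysis. -/
theorem faces (hr : 3 ≤ r) (hχ : NoOne r χ N) (hx : SM x (r + 2))
    (hb : ∀ j < r + 2, x j < 2 ^ N) {i : ℕ} (hi : i ≤ r + 1)
    (h : upD r χ (df (fun k => x (skip i k))) = true) :
    ∃ k ≤ r + 1, k ≠ i ∧ upD r χ (df (fun j => x (skip k j))) = true := by
  by_cases hI : IncD (df x) (r + 1)
  · rw [face_of_skip (by omega) (Or.inl hI) (fun j hj => inc_face hx hI (i := i) hj)] at h
    obtain ⟨k', h1, h2, h3⟩ := mono_aux hχ hx hb (incD_inj hI) (by omega) h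
    refine ⟨k' + 1, by omega, by omega, ?_⟩
    rw [face_of_skip (by omega) (Or.inl hI) (fun j hj => inc_face hx hI (i := k' + 1) hj)]
    exact h3
  by_cases hD : DecD (df x) (r + 1)
  · rw [face_of_skip (by omega) (Or.inr hD) (fun j hj => dec_face hx hD (i := i) hj)] at h
    obtain ⟨k', h1, h2, h3⟩ := mono_aux hχ hx hb (decD_inj hD) (by omega) h
    refine ⟨k', by omega, by omega, ?_⟩
    rw [face_of_skip (by omega) (Or.inr hD) (fun j hj => dec_face hx hD (i := k') hj)]
    rw [Nat.min_eq_left h1]
    exact h3
  have hne : ∀ j, j < r → df x j ≠ df x (j + 1) := fun j hj => df_ne hx (by omega)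
  rcases Nat.lt_or_ge (df x 0) (df x 1) with h01 | h01
  · -- an ascent at the beginning
    rcases Nat.lt_or_ge i 2 with hi2 | hi2
    · have he : ∀ j < r, df (fun k => x (skip 0 k)) j = df (fun k => x (skip 1 k)) j := by
        intro j hj
        rw [df_skip_ge (Nat.zero_le j)]
        rcases Nat.eq_zero_or_pos j with h0 | h0
        · subst h0
          rw [df_skip_eq hx (j := 0) (by omega)]
          show df x (0 + 1) = max (df x 0) (df x (0 + 1))
          have : df x (0 + 1) = df x 1 := rfl
          omega
        · rw [df_skip_ge h0]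
      have h2 := upD_congr (χ := χ) (by omega) he
      rcases Nat.eq_zero_or_pos i with h0 | h0
      · subst h0
        exact ⟨1, by omega, by omega, by rw [← h2]; exact h⟩
      · have : i = 1 := by omega
        subst this
        exact ⟨0, by omega, by omega, by rw [h2]; exact h⟩
    -- i ≥ 2
    have a0 : df (fun k => x (skip i k)) 0 = df x 0 := df_skip_lt (by omega)
    have a1 : df (fun k => x (skip i k)) 0 < df (fun k => x (skip i k)) 1 := by
      rw [a0]
      rcases Nat.eq_or_lt_of_le hi2 with h3 | h3
      · subst h3
        rw [df_skip_eq hx (j := 1) (by omega)]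
        omega
      · rw [df_skip_lt (by omega)]
        exact h01
    have hInc : IncD (df (fun k => x (skip i k))) r := by
      by_contra hcon
      have hnd : ¬ DecD (df (fun k => x (skip i k))) r := by
        intro hd
        have := hd 0 (by omega)
        have e : df (fun k => x (skip i k)) (0 + 1) = df (fun k => x (skip i k)) 1 := rfl
        omega
      rw [upD_non hcon hnd] at h
      have := of_decide_eq_true h
      omega
    -- it suffices to find a face with the same differences
    suffices hs : ∃ k ≤ r + 1, k ≠ i ∧
        ∀ j < r, df (fun l => x (skip k l)) j = df (fun l => x (skip i l)) j by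
      obtain ⟨k, h1, h2, h3⟩ := hs
      exact ⟨k, h1, h2, by rw [upD_congr (by omega) h3]; exact h⟩
    rcases Nat.eq_or_lt_of_le hi with hir | hir
    · -- the last point is omitted
      subst hir
      obtain ⟨p, rfl⟩ : ∃ p, r = p + 1 := ⟨r - 1, by omega⟩
      have b1 : df x (p + 1) < df x p := by
        by_contra hcon
        apply hI
        intro j hj
        rcases Nat.lt_or_ge (j + 1) (p + 1) with h4 | h4
        · have h5 := hInc j h4
          rw [df_skip_lt (by omega), df_skip_lt (by omega)] at h5
          exact h5
        · have h6 : j = p := by omega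
          subst h6
          have := hne j (by omega)
          omega
      refine ⟨p + 1, by omega, by omega, fun j hj => ?_⟩
      rw [df_skip_lt (i := p + 1 + 1) (by omega)]
      rcases Nat.lt_or_ge (j + 1) (p + 1) with h4 | h4
      · rw [df_skip_lt h4]
      · have h6 : j = p := by omega
        subst h6
        rw [df_skip_eq hx (by omega)]
        omega
    · obtain ⟨p, rfl⟩ : ∃ p, i = p + 1 := ⟨i - 1, by omega⟩
      have hp := hne p (by omega)
      rcases Nat.lt_or_ge (df x p) (df x (p + 1)) with h4 | h4
      · -- the difference p is removed; it is a local minimum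
        obtain ⟨q, rfl⟩ : ∃ q, p = q + 1 := ⟨p - 1, by omega⟩
        have b1 : df x (q + 1) < df x q := by
          by_contra hcon
          have hq := hne q (by omega)
          apply hI
          intro j hj
          rcases Nat.lt_or_ge j q with h5 | h5
          · have h6 := hInc j (by omega)
            rw [df_skip_lt (by omega), df_skip_lt (by omega)] at h6
            exact h6
          rcases Nat.eq_or_lt_of_le h5 with h6 | h6
          · subst h6
            omega
          rcases Nat.eq_or_lt_of_le (Nat.succ_le_of_lt h6) with h7 | h7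
          · have h8 : j = q + 1 := by omega
            subst h8
            exact h4
          · obtain ⟨l, rfl⟩ : ∃ l, j = l + 1 := ⟨j - 1, by omega⟩
            have h8 := hInc l (by omega)
            rw [df_skip_ge (j := l + 1) (by omega)] at h8
            rcases Nat.lt_or_ge l (q + 1 + 1) with h9 | h9
            · have h10 : l = q + 1 := by omega
              subst h10
              rw [df_skip_eq hx (by omega)] at h8
              omega
            · rw [df_skip_ge h9] at h8
              exact h8
        refine ⟨q + 1, by omega, by omega, fun j hj => ?_⟩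
        rcases Nat.lt_or_ge j q with h5 | h5
        · rw [df_skip_lt (by omega), df_skip_lt (by omega)]
        rcases Nat.eq_or_lt_of_le h5 with h6 | h6
        · subst h6
          rw [df_skip_eq hx (by omega), df_skip_lt (by omega)]
          omega
        rw [df_skip_ge (i := q + 1) (by omega)]
        rcases Nat.eq_or_lt_of_le (Nat.succ_le_of_lt h6) with h7 | h7
        · have h8 : j = q + 1 := by omega
          subst h8
          rw [df_skip_eq hx (by omega)]
          omega
        · rw [df_skip_ge (by omega)]
      · -- the difference p + 1 is removed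
        refine ⟨p + 2, by omega, by omega, fun j hj => ?_⟩
        rcases Nat.lt_or_ge j p with h5 | h5
        · rw [df_skip_lt (by omega), df_skip_lt (by omega)]
        rcases Nat.eq_or_lt_of_le h5 with h6 | h6
        · subst h6
          rw [df_skip_lt (by omega), df_skip_eq hx (by omega)]
          omega
        rw [df_skip_ge (i := p + 1) (by omega)]
        rcases Nat.eq_or_lt_of_le (Nat.succ_le_of_lt h6) with h7 | h7
        · have h8 : j = p + 1 := by omega
          subst h8
          have h9 := hInc p (by omega)
          rw [df_skip_eq hx (by omega), df_skip_ge (by omega)] at h9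
          rw [df_skip_eq hx (by omega)]
          omega
        · rw [df_skip_ge (by omega)]
  · -- a descent at the beginning
    have h01' : df x 1 < df x 0 := by
      have := hne 0 (by omega)
      have e : df x (0 + 1) = df x 1 := rfl
      omega
    suffices hs : ∃ k l, k ≤ r + 1 ∧ l ≤ r + 1 ∧ k ≠ l ∧
        upD r χ (df (fun j => x (skip k j))) = true ∧
        upD r χ (df (fun j => x (skip l j))) = true by
      obtain ⟨k, l, h1, h2, h3, h4, h5⟩ := hs
      by_cases hk : k = i
      · exact ⟨l, h2, by omega, h5⟩
      · exact ⟨k, h1, hk, h4⟩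
    have h12 := hne 1 (by omega)
    rcases Nat.lt_or_ge (df x (1 + 1)) (df x 1) with h21 | h21
    · refine ⟨0, 1, by omega, by omega, by omega, ?_, ?_⟩
      · have e : ∀ j, df (fun k => x (skip 0 k)) j = df x (j + 1) :=
          fun j => df_skip_ge (Nat.zero_le j)
        rw [upD_non]
        · rw [e, e]
          exact decide_eq_true h21
        · intro hcon
          have := hcon 0 (by omega)
          rw [e, e] at this
          have e2 : df x (0 + 1 + 1) = df x (1 + 1) := rfl
          have e3 : df x (0 + 1) = df x 1 := rfl
          omega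
        · intro hcon
          apply hD
          intro j hj
          rcases Nat.eq_zero_or_pos j with h0 | h0
          · subst h0
            exact h01'
          · obtain ⟨l, rfl⟩ : ∃ l, j = l + 1 := ⟨j - 1, by omega⟩
            have := hcon l (by omega)
            rw [e, e] at this
            exact this
      · have e0 : df (fun k => x (skip 1 k)) 0 = df x 0 := by
          rw [df_skip_eq hx (j := 0) (by omega)]
          show max (df x 0) (df x 1) = df x 0
          omega
        have e : ∀ j, 1 ≤ j → df (fun k => x (skip 1 k)) j = df x (j + 1) :=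
          fun j hj => df_skip_ge hj
        rw [upD_non]
        · rw [e0, e 1 le_rfl]
          exact decide_eq_true (by omega)
        · intro hcon
          have := hcon 0 (by omega)
          rw [e0, e (0 + 1) (by omega)] at this
          have e2 : df x (0 + 1 + 1) = df x (1 + 1) := rfl
          omega
        · intro hcon
          apply hD
          intro j hj
          rcases Nat.eq_zero_or_pos j with h0 | h0
          · subst h0
            exact h01'
          rcases Nat.eq_or_lt_of_le h0 with h3 | h3
          · have h4 : j = 1 := by omega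
            subst h4
            exact h21
          · obtain ⟨l, rfl⟩ : ∃ l, j = l + 1 := ⟨j - 1, by omega⟩
            have := hcon l (by omega)
            rw [e (l + 1) (by omega), e l (by omega)] at this
            exact this
    · refine ⟨3, 4, by omega, by omega, by omega, ?_, ?_⟩
      · have e0 : df (fun k => x (skip 3 k)) 0 = df x 0 := df_skip_lt (by omega)
        have e1 : df (fun k => x (skip 3 k)) 1 = df x 1 := df_skip_lt (by omega)
        have e2 : df (fun k => x (skip 3 k)) 2 = max (df x 2) (df x (2 + 1)) :=
          df_skip_eq hx (by omega)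
        rw [upD_non]
        · rw [e0, e1]
          exact decide_eq_true h01'
        · intro hcon
          have := hcon 0 (by omega)
          rw [e0] at this
          have e3 : df (fun k => x (skip 3 k)) (0 + 1) = df x 1 := e1
          omega
        · intro hcon
          have := hcon 1 (by omega)
          rw [e1] at this
          have e3 : df (fun k => x (skip 3 k)) (1 + 1) = max (df x 2) (df x (2 + 1)) := e2
          have e4 : df x (1 + 1) = df x 2 := rfl
          omega
      · have e0 : df (fun k => x (skip 4 k)) 0 = df x 0 := df_skip_lt (by omega)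
        have e1 : df (fun k => x (skip 4 k)) 1 = df x 1 := df_skip_lt (by omega)
        have e2 : df (fun k => x (skip 4 k)) 2 = df x 2 := df_skip_lt (by omega)
        rw [upD_non]
        · rw [e0, e1]
          exact decide_eq_true h01'
        · intro hcon
          have := hcon 0 (by omega)
          rw [e0] at this
          have e3 : df (fun k => x (skip 4 k)) (0 + 1) = df x 1 := e1
          omega
        · intro hcon
          have := hcon 1 (by omega)
          rw [e1] at this
          have e3 : df (fun k => x (skip 4 k)) (1 + 1) = df x 2 := e2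
          have e4 : df x (1 + 1) = df x 2 := rfl
          omega

end faces

/-- The stepping-up colouring has the property again. -/
theorem noOne_up {r N : ℕ} {χ : Finset ℕ → Bool} (hr : 3 ≤ r) (hχ : NoOne r χ N) :
    NoOne (r + 1) (up r χ) (2 ^ N) := by
  intro S hS hc a ha h
  obtain ⟨i, hi, rfl⟩ := el_surj ha
  have hx : SM (el S) (r + 2) := by
    have := sm_el S
    rwa [hc] at this
  have hb : ∀ j < r + 2, el S j < 2 ^ N := fun j hj => by
    have := hS (el_mem (S := S) (j := j) (by omega))
    simpa using this
  rw [erase_el (m := r + 1) hc (by omega), up_image (by omega) (sm_skip hx i)] at h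
  obtain ⟨k, h1, h2, h3⟩ := faces hr hχ hx hb (i := i) (by omega) h
  refine ⟨el S k, el_mem (by omega), ?_, ?_⟩
  · intro h4
    exact h2 (hx.inj (by omega) (by omega) h4)
  · rw [erase_el (m := r + 1) hc (by omega), up_image (by omega) (sm_skip hx k)]
    exact h3

end Pool.Agent.U290.EHS
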