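import Pool.Agent.U290.EHS.Hom
import Pool.Agent.N584.TI.Count

/-! Tower lower bounds for colourings without exactly one red set on `r + 1` points. -/

set_option autoImplicit false

namespace Pool.Agent.U290.EHS

open Finset

theorem NoOne.mono {r N N' : ℕ} {χ : Finset ℕ → Bool} (h : NoOne r χ N) (hN : N' ≤ N) :
    NoOne r χ N' := fun S hS => h S (hS.trans (range_subset_range.2 hN))

theorem NoHom.mono {r m m' N N' : ℕ} {χ : Finset ℕ → Bool} (h : NoHom r χ m N) (hN : N' ≤ N)
    (hm : m ≤ m') : NoHom r χ m' N' := by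
  intro S hS hc q
  obtain ⟨S', hS', hc'⟩ := exists_subset_card_eq (s := S) (n := m) (by omega)
  obtain ⟨e, h1, h2, h3⟩ := h S' ((hS'.trans hS).trans (range_subset_range.2 hN)) hc' q
  exact ⟨e, h1.trans hS', h2, h3⟩

/-- The coboundary of a colouring of pairs. -/
noncomputable def cob (g : Finset ℕ → Bool) (S : Finset ℕ) : Bool :=
  (g {el S 0, el S 1}) ^^ ((g {el S 1, el S 2}) ^^ (g {el S 0, el S 2}))

theorem el_three {a b c : ℕ} (hab : a < b) (hbc : b < c) :
    el {a, b, c} 0 = a ∧ el {a, b, c} 1 = b ∧ el {a, b, c} 2 = c := by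
  let x : ℕ → ℕ := fun j => if j = 0 then a else if j = 1 then b else c
  have hx : SM x 3 := by
    apply sm_of_succ
    intro k hk
    have : k = 0 ∨ k = 1 := by omega
    rcases this with rfl | rfl
    · exact hab
    · exact hbc
  have hS : (range 3).image x = {a, b, c} := by
    ext u
    simp only [mem_image, mem_range, mem_insert, mem_singleton]
    constructor
    · rintro ⟨j, hj, rfl⟩
      have h3 : j = 0 ∨ j = 1 ∨ j = 2 := by omega
      rcases h3 with rfl | rfl | rfl
      · exact Or.inl rfl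
      · exact Or.inr (Or.inl rfl)
      · exact Or.inr (Or.inr rfl)
    · rintro (h | h | h)
      · exact ⟨0, by omega, h.symm⟩
      · exact ⟨1, by omega, h.symm⟩
      · exact ⟨2, by omega, h.symm⟩
  rw [← hS]
  exact ⟨el_image hx (by omega), el_image hx (by omega), el_image hx (by omega)⟩

theorem cob_three {g : Finset ℕ → Bool} {a b c : ℕ} (hab : a < b) (hbc : b < c) :
    cob g {a, b, c} = ((g {a, b}) ^^ ((g {b, c}) ^^ (g {a, c}))) := by
  obtain ⟨h1, h2, h3⟩ := el_three hab hbc
  rw [cob, h1, h2, h3]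

theorem noOne_cob (g : Finset ℕ → Bool) (N : ℕ) : NoOne 3 (cob g) N := by
  intro S hS hc a ha h
  obtain ⟨i, hi, rfl⟩ := el_surj ha
  have hx : SM (el S) 4 := by
    have := sm_el S
    rwa [hc] at this
  set x := el S with hxd
  have face : ∀ k ≤ 3, cob g (S.erase (x k)) =
      ((g {x (skip k 0), x (skip k 1)}) ^^ ((g {x (skip k 1), x (skip k 2)}) ^^
        (g {x (skip k 0), x (skip k 2)}))) := by
    intro k hk
    rw [hxd, erase_el (m := 3) hc hk, cob]
    have h1 := sm_skip hx k
    rw [el_image h1 (by omega), el_image h1 (by omega), el_image h1 (by omega)]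
  have f0 := face 0 (by omega)
  have f1 := face 1 (by omega)
  have f2 := face 2 (by omega)
  have f3 := face 3 (by omega)
  have s00 : skip 0 0 = 1 := rfl
  have s01 : skip 0 1 = 2 := rfl
  have s02 : skip 0 2 = 3 := rfl
  have s10 : skip 1 0 = 0 := rfl
  have s11 : skip 1 1 = 2 := rfl
  have s12 : skip 1 2 = 3 := rfl
  have s20 : skip 2 0 = 0 := rfl
  have s21 : skip 2 1 = 1 := rfl
  have s22 : skip 2 2 = 3 := rfl
  have s30 : skip 3 0 = 0 := rfl
  have s31 : skip 3 1 = 1 := rfl
  have s32 : skip 3 2 = 2 := rfl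
  rw [s00, s01, s02] at f0
  rw [s10, s11, s12] at f1
  rw [s20, s21, s22] at f2
  rw [s30, s31, s32] at f3
  have hsum : (cob g (S.erase (x 0)) ^^ (cob g (S.erase (x 1)) ^^
      (cob g (S.erase (x 2)) ^^ cob g (S.erase (x 3))))) = false := by
    rw [f0, f1, f2, f3]
    generalize g {x 0, x 1} = p01
    generalize g {x 0, x 2} = p02
    generalize g {x 0, x 3} = p03
    generalize g {x 1, x 2} = p12
    generalize g {x 1, x 3} = p13
    generalize g {x 2, x 3} = p23
    revert p01 p02 p03 p12 p13 p23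
    decide
  have key : ∃ k ≤ 3, k ≠ i ∧ cob g (S.erase (x k)) = true := by
    have hi4 : i = 0 ∨ i = 1 ∨ i = 2 ∨ i = 3 := by omega
    by_contra hcon
    push Not at hcon
    rcases hi4 with rfl | rfl | rfl | rfl
    · have a1 := hcon 1 (by omega) (by omega)
      have a2 := hcon 2 (by omega) (by omega)
      have a3 := hcon 3 (by omega) (by omega)
      rw [h, (Bool.not_eq_true _).mp a1, (Bool.not_eq_true _).mp a2,
        (Bool.not_eq_true _).mp a3] at hsum
      exact absurd hsum (by decide)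
    · have a1 := hcon 0 (by omega) (by omega)
      have a2 := hcon 2 (by omega) (by omega)
      have a3 := hcon 3 (by omega) (by omega)
      rw [h, (Bool.not_eq_true _).mp a1, (Bool.not_eq_true _).mp a2,
        (Bool.not_eq_true _).mp a3] at hsum
      exact absurd hsum (by decide)
    · have a1 := hcon 0 (by omega) (by omega)
      have a2 := hcon 1 (by omega) (by omega)
      have a3 := hcon 3 (by omega) (by omega)
      rw [h, (Bool.not_eq_true _).mp a1, (Bool.not_eq_true _).mp a2,
        (Bool.not_eq_true _).mp a3] at hsum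
      exact absurd hsum (by decide)
    · have a1 := hcon 0 (by omega) (by omega)
      have a2 := hcon 1 (by omega) (by omega)
      have a3 := hcon 2 (by omega) (by omega)
      rw [h, (Bool.not_eq_true _).mp a1, (Bool.not_eq_true _).mp a2,
        (Bool.not_eq_true _).mp a3] at hsum
      exact absurd hsum (by decide)
  obtain ⟨k, h1, h2, h3⟩ := key
  exact ⟨x k, el_mem (by omega), fun h4 => h2 (hx.inj (by omega) (by omega) h4), h3⟩

theorem noHom_cob {g : Finset ℕ → Bool} {s N : ℕ} (hs : 1 ≤ s) (hg : NoHom 2 g s N) :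
    NoHom 3 (cob g) (2 * s) N := by
  intro S hS hc q
  by_contra hcon
  push Not at hcon
  set v := el S 0 with hv
  have hvS : v ∈ S := el_mem (by omega)
  have hmin : ∀ w ∈ S, w ≠ v → v < w := by
    intro w hw hne
    obtain ⟨j, hj, rfl⟩ := el_surj hw
    rcases Nat.eq_zero_or_pos j with h0 | h0
    · subst h0; exact absurd rfl hne
    · exact el_lt h0 hj
  -- a large class
  obtain ⟨b, A, hA1, hA2, hA3⟩ : ∃ (b : Bool) (A : Finset ℕ), A ⊆ S.erase v ∧ A.card = s ∧
      ∀ w ∈ A, g {v, w} = b := by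
    have h1 : (S.erase v).card = 2 * s - 1 := by rw [card_erase_of_mem hvS, hc]
    have h2 := card_filter_add_card_filter_not (s := S.erase v) (fun w => g {v, w} = true)
    rcases Nat.lt_or_ge ((S.erase v).filter (fun w => g {v, w} = true)).card s with h3 | h3
    · obtain ⟨A, h4, h5⟩ := exists_subset_card_eq
        (s := (S.erase v).filter (fun w => ¬ g {v, w} = true)) (n := s) (by omega)
      refine ⟨false, A, h4.trans (filter_subset _ _), h5, fun w hw => ?_⟩
      have := (mem_filter.1 (h4 hw)).2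
      simpa using this
    · obtain ⟨A, h4, h5⟩ := exists_subset_card_eq h3
      exact ⟨true, A, h4.trans (filter_subset _ _), h5, fun w hw => (mem_filter.1 (h4 hw)).2⟩
  obtain ⟨e, he1, he2, he3⟩ := hg A ((hA1.trans (erase_subset _ _)).trans hS) hA2 q
  obtain ⟨w, w', hww, rfl⟩ := card_eq_two.1 he2
  apply he3
  have main : ∀ w w', w ∈ A → w' ∈ A → w < w' → g {w, w'} = q := by
    intro w w' hw hw' hlt
    have h1 := hA1 hw
    have h2 := hA1 hw'
    rw [mem_erase] at h1 h2
    have h3 := hmin w h1.2 h1.1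
    have h4 : cob g {v, w, w'} = q := by
      apply hcon
      · intro u hu
        simp only [mem_insert, mem_singleton] at hu
        rcases hu with rfl | rfl | rfl
        · exact hvS
        · exact h1.2
        · exact h2.2
      · rw [card_eq_three]
        exact ⟨v, w, w', by omega, by omega, by omega, rfl⟩
    rw [cob_three h3 hlt, hA3 w hw, hA3 w' hw'] at h4
    rw [← h4]
    cases b <;> cases g {w, w'} <;> rfl
  have hwA : w ∈ A := he1 (by simp)
  have hwA' : w' ∈ A := he1 (by simp)
  rcases lt_or_gt_of_ne hww with h | h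
  · exact main w w' hwA hwA' h
  · rw [Finset.pair_comm]
    exact main w' w hwA' hwA h

/-- The tower `2 ^ (2 ^ (… ^ x))` with `s` twos. -/
def tow : ℕ → ℕ → ℕ
  | 0, x => x
  | s + 1, x => 2 ^ tow s x

theorem tow_mono (s : ℕ) {a b : ℕ} (h : a ≤ b) : tow s a ≤ tow s b := by
  induction s with
  | zero => exact h
  | succ s ih => exact Nat.pow_le_pow_right (by norm_num) ih

/-- Tower lower bound. -/
theorem low (r : ℕ) (hr : 3 ≤ r) : ∃ K : ℕ, 1 ≤ K ∧ ∀ m : ℕ, K ≤ m → ∃ χ : Finset ℕ → Bool,
    NoOne r χ (tow (r - 2) (m / K)) ∧ NoHom r χ m (tow (r - 2) (m / K)) := by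
  induction r, hr using Nat.le_induction with
  | base =>
    refine ⟨8, by norm_num, fun m hm => ?_⟩
    have h1 := Pool.Agent.N584.TI.two_lower (m / 2) (by omega)
    unfold Pool.Agent.N584.TI.Arrow at h1
    push Not at h1
    obtain ⟨g, -, hg⟩ := h1
    have hg' : NoHom 2 g (m / 2) (2 ^ (m / 2 / 4)) := by
      intro S hS hc q
      exact hg S hS hc q
    have e : tow (3 - 2) (m / 8) = 2 ^ (m / 2 / 4) := by
      show 2 ^ (m / 8) = 2 ^ (m / 2 / 4)
      rw [Nat.div_div_eq_div_mul]
    rw [e]
    exact ⟨cob g, noOne_cob g _, (noHom_cob (by omega) hg').mono le_rfl (by omega)⟩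
  | succ r hr ih =>
    obtain ⟨K, hK, ih⟩ := ih
    refine ⟨4 * K + 4 * r, by omega, fun m hm => ?_⟩
    obtain ⟨m₀, hm₀⟩ : ∃ m₀, m₀ = (m + 1 - r) / 2 := ⟨_, rfl⟩
    obtain ⟨χ, h1, h2⟩ := ih m₀ (by omega)
    have e : tow (r + 1 - 2) (m / (4 * K + 4 * r)) ≤ 2 ^ tow (r - 2) (m₀ / K) := by
      obtain ⟨s, rfl⟩ : ∃ s, r = s + 2 := ⟨r - 2, by omega⟩
      show tow (s + 1) _ ≤ tow (s + 1) _
      apply tow_mono
      rw [Nat.le_div_iff_mul_le (by omega)]
      have h3 : m / (4 * K + 4 * (s + 2)) * (4 * K + 4 * (s + 2)) ≤ m := Nat.div_mul_le_self _ _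
      have h4 : m / (4 * K + 4 * (s + 2)) * (4 * K + 4 * (s + 2)) =
        4 * (m / (4 * K + 4 * (s + 2)) * K) + 4 * (m / (4 * K + 4 * (s + 2)) * (s + 2)) := by ring
      omega
    refine ⟨up r χ, (noOne_up hr h1).mono e, (noHom_up hr (by omega) h2).mono e (by omega)⟩

/-- Colourings of tower size without homogeneous sets and without `r + 1` points which span exactly
`t` red sets, `t = 1` or `t = r`. -/
theorem sharp (r : ℕ) (hr : 3 ≤ r) : ∃ K : ℕ, 1 ≤ K ∧ ∀ n t : ℕ, K ≤ n → (t = 1 ∨ t = r) →
    ∃ c : Finset ℕ → Bool,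
      (∀ S ⊆ range (tow (r - 2) (n / K)), S.card = n → ∀ q : Bool, ∃ e ⊆ S, e.card = r ∧ c e ≠ q) ∧
      ∀ V ⊆ range (tow (r - 2) (n / K)), V.card = r + 1 →
        ((V.powersetCard r).filter fun e => c e = true).card ≠ t := by
  obtain ⟨K, hK, h⟩ := low r hr
  refine ⟨K, hK, fun n t hn ht => ?_⟩
  obtain ⟨χ, h1, h2⟩ := h n hn
  have face : ∀ V : Finset ℕ, V.card = r + 1 → ∀ e ∈ V.powersetCard r, ∃ a ∈ V, e = V.erase a := by
    intro V hV e he
    rw [mem_powersetCard] at he
    have h3 : (V \ e).card = 1 := by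
      rw [card_sdiff_of_subset he.1, hV, he.2]
      omega
    obtain ⟨a, ha⟩ := card_eq_one.1 h3
    have haV : a ∈ V \ e := by rw [ha]; exact mem_singleton_self a
    refine ⟨a, (mem_sdiff.1 haV).1, ?_⟩
    rw [← sdiff_singleton_eq_erase, ← ha, Finset.sdiff_sdiff_eq_self he.1]
  have mem_face : ∀ V : Finset ℕ, V.card = r + 1 → ∀ a ∈ V, V.erase a ∈ V.powersetCard r := by
    intro V hV a ha
    rw [mem_powersetCard]
    exact ⟨erase_subset _ _, by rw [card_erase_of_mem ha, hV]; rfl⟩
  have hne1 : ∀ V ⊆ range (tow (r - 2) (n / K)), V.card = r + 1 →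
      ((V.powersetCard r).filter fun e => χ e = true).card ≠ 1 := by
    intro V hV hc hcon
    obtain ⟨e, he⟩ := card_eq_one.1 hcon
    have h3 : e ∈ (V.powersetCard r).filter fun e => χ e = true := by
      rw [he]; exact mem_singleton_self e
    rw [mem_filter] at h3
    obtain ⟨a, ha, rfl⟩ := face V hc e h3.1
    obtain ⟨b, hb, hba, hb2⟩ := h1 V hV hc a ha h3.2
    have h4 : V.erase b ∈ (V.powersetCard r).filter fun e => χ e = true :=
      mem_filter.2 ⟨mem_face V hc b hb, hb2⟩
    rw [he, mem_singleton] at h4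
    have h5 : b ∈ V.erase a := mem_erase.2 ⟨hba, hb⟩
    rw [← h4] at h5
    exact absurd rfl (mem_erase.1 h5).1
  rcases ht with rfl | rfl
  · exact ⟨χ, h2, hne1⟩
  · refine ⟨fun e => !χ e, ?_, ?_⟩
    · intro S hS hc q
      obtain ⟨e, h3, h4, h5⟩ := h2 S hS hc (!q)
      refine ⟨e, h3, h4, ?_⟩
      intro h6
      apply h5
      rw [← h6, Bool.not_not]
    · intro V hV hc hcon
      have h3 := card_filter_add_card_filter_not (s := V.powersetCard t)
        (fun e => χ e = true)
      have h4 : (V.powersetCard t).card = t + 1 := by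
        rw [card_powersetCard, hc, Nat.choose_succ_self_right]
      have h5 : ((V.powersetCard t).filter fun e => ¬ χ e = true).card = t := by
        have h6 : ((V.powersetCard t).filter fun e => ¬ χ e = true) =
            (V.powersetCard t).filter fun e => (fun e => !χ e) e = true := by
          apply filter_congr
          intro e _
          simp
        rw [h6]
        exact hcon
      exact hne1 V hV hc (by omega)

end Pool.Agent.U290.EHS
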